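import Pool.Agent.X278.OP.Cmp

/-!
# The comparison without the square system, and growth
-/

set_option autoImplicit false

namespace Pool.Agent.X278.OP

open Complex Filter Topology Set Asymptotics
open Pool.Agent.W189.ML Pool.Agent.X287.CR

variable {X : Type} {d : ℕ} {θ : ℝ} {q : X → ℕ} {α : X → Fin d → ℂ}

/-- decay of the difference of the weights -/
theorem Wt_diff (γ : ℝ) : ∃ C : ℝ, 0 ≤ C ∧ ∀ u : ℝ, 0 ≤ u →
    ‖Wt γ (2 * u) - Wt γ u‖ ≤ C * (u * Real.exp (-u)) := by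
  obtain ⟨C₁, hC₁, h1⟩ := Wt_lip γ
  set A : ℝ := Real.exp (Real.exp 2) + 1 with hA
  have hA0 : 0 ≤ A := by positivity
  refine ⟨C₁ * Real.exp 1 + 2 * A, by positivity, fun u hu => ?_⟩
  have hue : 0 ≤ u * Real.exp (-u) := by positivity
  rcases le_or_gt u 1 with h | h
  · have h2 := h1 (2 * u) u (by linarith) hu
    have h3 : |2 * u - u| = u := by rw [show 2 * u - u = u by ring, abs_of_nonneg hu]
    rw [h3] at h2
    have h4 : (1 : ℝ) ≤ Real.exp 1 * Real.exp (-u) := by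
      rw [← Real.exp_add]
      exact Real.one_le_exp (by linarith)
    calc _ ≤ C₁ * u := h2
      _ = C₁ * u * 1 := by ring
      _ ≤ C₁ * u * (Real.exp 1 * Real.exp (-u)) := by gcongr
      _ = C₁ * Real.exp 1 * (u * Real.exp (-u)) := by ring
      _ ≤ _ := by nlinarith
  · have h2 := om_le (a := 2) (v := 2 * u) (by norm_num) (by linarith)
    have h3 := om_le (a := 2) (v := u) (by norm_num) hu
    have h4 : Real.exp (-(2 * (2 * u))) ≤ Real.exp (-u) := Real.exp_le_exp.2 (by linarith)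
    have h5 : Real.exp (-(2 * u)) ≤ Real.exp (-u) := Real.exp_le_exp.2 (by linarith)
    have h6 : Real.exp (-u) ≤ u * Real.exp (-u) := by
      have := Real.exp_pos (-u)
      nlinarith
    have h7 := Real.exp_pos (-u)
    refine (norm_sub_le _ _).trans ?_
    rw [norm_Wt γ (by linarith : 0 ≤ 2 * u), norm_Wt γ hu]
    calc om (2 * u) + om u ≤ A * Real.exp (-(2 * (2 * u))) + A * Real.exp (-(2 * u)) := add_le_add h2 h3
      _ ≤ A * Real.exp (-u) + A * Real.exp (-u) := by gcongr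
      _ = 2 * A * Real.exp (-u) := by ring
      _ ≤ 2 * A * (u * Real.exp (-u)) := by gcongr
      _ ≤ _ := by
        have : 0 ≤ C₁ * Real.exp 1 * (u * Real.exp (-u)) := by positivity
        linarith

section

variable (G : CSys θ q α)
include G

/-- the square part is bounded -/
theorem sq_bdd {s₀ : ℂ} (hs₀ : θ + 1 / 2 ≤ s₀.re) (γ : ℝ)
    (hlog : ∃ C σ₀ : ℝ, 0 < σ₀ ∧ ∀ σ : ℝ, 0 < σ → σ < σ₀ →
      Summable (fun v => Real.log (q v) * (q v : ℝ) ^ (-(1 + σ))) ∧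
      σ * ∑' v, Real.log (q v) * (q v : ℝ) ^ (-(1 + σ)) ≤ C) :
    ∃ C : ℝ, ∀ᶠ T : ℝ in atTop,
      ‖Su q (sq α) (2 * s₀) γ T - Su q (sq α) (2 * s₀) γ (T / 2)‖ ≤ C := by
  obtain ⟨Cw, hCw, hlip⟩ := Wt_lip γ
  obtain ⟨Cd, hCd, hdiff⟩ := Wt_diff γ
  obtain ⟨CL, σ₀, hσ₀, hL⟩ := hlog
  set h : X × ℕ → ℝ := fun x => 4 * d * ((q x.1 : ℝ) ^ (-(5 / 4) : ℝ) * (((x.2 : ℝ) + 2) * (3 / 4) ^ x.2))
    with hh
  have hhs : Summable h := (geo_sum G).mul_left (4 * (d : ℝ))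
  have hh0 : ∀ x, 0 ≤ h x := fun x => by
    have := (Real.rpow_pos_of_pos (G.qpos x.1) (-(5 / 4) : ℝ)).le
    rw [hh]
    positivity
  have hS0 : 0 ≤ ∑' x, h x := tsum_nonneg hh0
  refine ⟨d * Cd * CL + Cw * ∑' x, h x, ?_⟩
  filter_upwards [eventually_gt_atTop (1 / σ₀), eventually_ge_atTop (1 : ℝ)] with T hTσ hT1
  have hT : 0 < T := by linarith
  have hT2 : 0 < T / 2 := by positivity
  have hT0 := hT.le
  have hσT : 1 / T < σ₀ := by
    rw [div_lt_iff₀ hσ₀] at hTσ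
    rw [div_lt_iff₀ hT]
    linarith
  obtain ⟨hLs, hLb⟩ := hL (1 / T) (by positivity) hσT
  have G2 := sq_sys G
  have hs2 : 2 * θ ≤ (2 * s₀).re := by
    have : (2 * s₀).re = 2 * s₀.re := by simp
    rw [this]
    linarith
  set u : X × ℕ → ℂ := fun x => cc q (sq α) (2 * s₀) x * Wt γ (lam q x / T) with hu
  set w : X × ℕ → ℂ := fun x => cc q (sq α) (2 * s₀) x * Wt γ (lam q x / (T / 2)) with hw
  have su : Summable u := by
    have := (G2.tm_summable hs2 γ hT).of_norm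
    refine this.neg.congr fun x => ?_
    rw [tm_Wt, neg_neg]
  have sw : Summable w := by
    have := (G2.tm_summable hs2 γ hT2).of_norm
    refine this.neg.congr fun x => ?_
    rw [tm_Wt, neg_neg]
  set f : X × ℕ → ℂ := fun x => w x - u x with hf
  have sf : Summable f := sw.sub su
  obtain ⟨f1, sf0, sf1⟩ := split sf
  have hE : Su q (sq α) (2 * s₀) γ T - Su q (sq α) (2 * s₀) γ (T / 2) =
      ∑' v, f (v, 0) + ∑' x : X × ℕ, f (x.1, x.2 + 1) := by
    rw [Su_Wt, Su_Wt, ← f1]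
    have k2 : ∑' x, f x = ∑' x, w x - ∑' x, u x := sw.tsum_sub su
    rw [k2]
    ring
  rw [hE]
  -- the first powers
  have b1 : ∀ v, ‖f (v, 0)‖ ≤ d * Cd * (1 / T * (Real.log (q v) * (q v : ℝ) ^ (-(1 + 1 / T)))) := by
    intro v
    have hl := (G.logpos v).le
    have hq := G.qpos v
    have l2 : lam q (v, 0) = Real.log (q v) := by unfold lam; simp
    have m1 : f (v, 0) = cc q (sq α) (2 * s₀) (v, 0) *
        (Wt γ (2 * (Real.log (q v) / T)) - Wt γ (Real.log (q v) / T)) := by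
      simp only [hf, hw, hu, l2]
      rw [show Real.log (q v) / (T / 2) = 2 * (Real.log (q v) / T) by field_simp]
      ring
    have m2 := hdiff (Real.log (q v) / T) (div_nonneg hl hT0)
    have m3 := G2.cc_le (2 * s₀) (v, 0)
    have m4 : (q v : ℝ) ^ (2 * θ - (2 * s₀).re) ≤ (q v : ℝ) ^ (-1 : ℝ) := by
      apply Real.rpow_le_rpow_of_exponent_le (by linarith [G.two_le' v])
      have : (2 * s₀).re = 2 * s₀.re := by simp
      rw [this]
      linarith
    have m5 : ‖cc q (sq α) (2 * s₀) (v, 0)‖ ≤ d * (q v : ℝ) ^ (-1 : ℝ) := by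
      refine m3.trans ?_
      simp only [zero_add, pow_one]
      gcongr
    have m6 : (q v : ℝ) ^ (-(1 + 1 / T)) = (q v : ℝ) ^ (-1 : ℝ) * Real.exp (-(Real.log (q v) / T)) := by
      rw [show -(1 + 1 / T) = (-1 : ℝ) + -(1 / T) by ring, Real.rpow_add hq]
      congr 1
      rw [Real.rpow_def_of_pos hq]
      congr 1
      ring
    rw [m1, norm_mul]
    have m7 := (Real.rpow_pos_of_pos hq (-1 : ℝ)).le
    calc _ ≤ (d * (q v : ℝ) ^ (-1 : ℝ)) * (Cd * (Real.log (q v) / T * Real.exp (-(Real.log (q v) / T)))) :=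
          mul_le_mul m5 m2 (norm_nonneg _) (by positivity)
      _ = _ := by rw [m6]; ring
  have c1 : ‖∑' v, f (v, 0)‖ ≤ d * Cd * CL := by
    refine (tsum_of_norm_bounded ((hLs.mul_left (1 / T)).mul_left (d * Cd)).hasSum b1).trans ?_
    rw [tsum_mul_left, tsum_mul_left]
    gcongr
  have b2 : ∀ x : X × ℕ, ‖f (x.1, x.2 + 1)‖ ≤ Cw / T * h x := by
    rintro ⟨v, k⟩
    have hl := (G.logpos v).le
    have m1 : f (v, k + 1) = cc q (sq α) (2 * s₀) (v, k + 1) *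
        (Wt γ (lam q (v, k + 1) / (T / 2)) - Wt γ (lam q (v, k + 1) / T)) := by
      simp only [hf, hw, hu]
      ring
    have l1 : lam q (v, k + 1) = ((k : ℝ) + 2) * Real.log (q v) := by unfold lam; push_cast; ring
    have m2 := hlip (lam q (v, k + 1) / (T / 2)) (lam q (v, k + 1) / T)
      (div_nonneg (G.lam_nonneg _) hT2.le) (div_nonneg (G.lam_nonneg _) hT0)
    have m3 : |lam q (v, k + 1) / (T / 2) - lam q (v, k + 1) / T| =
        (((k : ℝ) + 2) * Real.log (q v)) / T := by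
      rw [l1]
      have : ((k : ℝ) + 2) * Real.log (q v) / (T / 2) - ((k : ℝ) + 2) * Real.log (q v) / T =
          (((k : ℝ) + 2) * Real.log (q v)) / T := by field_simp; ring
      rw [this, abs_of_nonneg (by positivity)]
    rw [m3] at m2
    have m4 := cc2_half G hs₀ v k
    have m5 := h_le G v k
    have m6 : (0 : ℝ) ≤ d * ((q v : ℝ) ^ (-(1 / 2) : ℝ)) ^ (k + 3) := by
      have := (Real.rpow_pos_of_pos (G.qpos v) (-(1 / 2) : ℝ)).le
      positivity
    show ‖f (v, k + 1)‖ ≤ _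
    rw [m1, norm_mul]
    calc _ ≤ (d * ((q v : ℝ) ^ (-(1 / 2) : ℝ)) ^ (k + 3)) * (Cw * ((((k : ℝ) + 2) * Real.log (q v)) / T)) :=
          mul_le_mul m4 m2 (norm_nonneg _) m6
      _ = Cw / T * (d * ((q v : ℝ) ^ (-(1 / 2) : ℝ)) ^ (k + 3) * (((k : ℝ) + 2) * Real.log (q v))) := by ring
      _ ≤ _ := mul_le_mul_of_nonneg_left m5 (by positivity)
  have c2 : ‖∑' x : X × ℕ, f (x.1, x.2 + 1)‖ ≤ Cw * ∑' x, h x := by
    refine (tsum_of_norm_bounded (hhs.mul_left (Cw / T)).hasSum b2).trans ?_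
    rw [tsum_mul_left]
    have : Cw / T ≤ Cw := div_le_self hCw hT1
    gcongr
  exact (norm_add_le _ _).trans (add_le_add c1 c2)

/-- **the law for the sum over the places, up to a bounded function** -/
theorem law_bdd {s₀ : ℂ} (hs₀ : θ + 1 / 2 ≤ s₀.re) (γ : ℝ)
    (hlog : ∃ C σ₀ : ℝ, 0 < σ₀ ∧ ∀ σ : ℝ, 0 < σ → σ < σ₀ →
      Summable (fun v => Real.log (q v) * (q v : ℝ) ^ (-(1 + σ))) ∧
      σ * ∑' v, Real.log (q v) * (q v : ℝ) ^ (-(1 + σ)) ≤ C) {Λ : ℂ} {m : ℤ} {r₀ : ℂ}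
    (h : Asy Λ (Su q α s₀ γ) m r₀) :
    ∃ B : ℝ, ∀ᶠ T : ℝ in atTop, ‖Sp q α s₀ γ T - m * Real.log T‖ ≤ B := by
  obtain ⟨C₁, hC₁, hc⟩ := cmp G hs₀ γ
  obtain ⟨C₂, h2⟩ := sq_bdd G hs₀ γ hlog
  have h3 := h.tend.norm
  rw [norm_zero] at h3
  refine ⟨C₁ + 1 / 2 * C₂ + 1 + ‖(m : ℂ) * Λ + r₀‖, ?_⟩
  filter_upwards [h2, h3.eventually_lt_const (show (0 : ℝ) < 1 by norm_num),
    eventually_ge_atTop (1 : ℝ)] with T a1 a2 a3
  have a4 := hc T (by linarith)
  have a5 : C₁ / T ≤ C₁ := div_le_self hC₁ a3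
  have e : Sp q α s₀ γ T - m * Real.log T = (Sp q α s₀ γ T - Su q α s₀ γ T -
      (1 / 2) * (Su q (sq α) (2 * s₀) γ T - Su q (sq α) (2 * s₀) γ (T / 2))) +
      (1 / 2) * (Su q (sq α) (2 * s₀) γ T - Su q (sq α) (2 * s₀) γ (T / 2)) +
      (Su q α s₀ γ T - (m * (Real.log T - Λ) - r₀)) - (m * Λ + r₀) := by ring
  rw [e]
  refine (norm_sub_le _ _).trans ?_
  refine add_le_add ((norm_add_le _ _).trans (add_le_add ((norm_add_le _ _).trans
    (add_le_add (a4.trans a5) ?_)) a2.le)) le_rfl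
  rw [norm_mul]
  have : ‖(1 / 2 : ℂ)‖ = 1 / 2 := by norm_num
  rw [this]
  gcongr

end

/-- growth of order `m` -/
def Gr (S : ℝ → ℂ) (m : ℤ) : Prop := ∃ B : ℝ, ∀ᶠ T : ℝ in atTop, ‖S T - m * Real.log T‖ ≤ B

namespace Gr

variable {S : ℝ → ℂ} {m : ℤ} (h : Gr S m)
include h

theorem re : ∃ B : ℝ, ∀ᶠ T : ℝ in atTop, |(S T).re - m * Real.log T| ≤ B := by
  obtain ⟨B, hB⟩ := h
  refine ⟨B, ?_⟩
  filter_upwards [hB] with T hT
  have h1 := (Complex.abs_re_le_norm (S T - m * Real.log T)).trans hT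
  have h2 : (S T - m * Real.log T).re = (S T).re - m * Real.log T := by simp
  rwa [h2] at h1

theorem lim : Tendsto (fun T : ℝ => (S T).re / Real.log T) atTop (𝓝 (m : ℝ)) := by
  obtain ⟨B, hB⟩ := h.re
  have h1 : Tendsto (fun T : ℝ => ((S T).re - m * Real.log T) / Real.log T) atTop (𝓝 0) := by
    have h2 : Tendsto (fun T : ℝ => B / Real.log T) atTop (𝓝 0) :=
      tendsto_const_nhds.div_atTop Real.tendsto_log_atTop
    refine squeeze_zero_norm' ?_ h2
    filter_upwards [hB, eventually_gt_atTop (1 : ℝ)] with T hT hT1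
    have hlog : 0 < Real.log T := Real.log_pos hT1
    rw [Real.norm_eq_abs, abs_div, abs_of_pos hlog]
    gcongr
  have h3 := h1.add_const (m : ℝ)
  rw [zero_add] at h3
  refine h3.congr' ?_
  filter_upwards [eventually_gt_atTop (1 : ℝ)] with T hT1
  have hlog : 0 < Real.log T := Real.log_pos hT1
  field_simp
  ring

theorem iff (r : ℤ) : m = r ↔ Tendsto (fun T : ℝ => (S T).re / Real.log T) atTop (𝓝 (r : ℝ)) := by
  constructor
  · rintro rfl
    exact h.lim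
  · intro h1
    exact_mod_cast tendsto_nhds_unique h.lim h1

theorem norm_exp : ∃ c C : ℝ, 0 < c ∧ ∀ᶠ T : ℝ in atTop,
    c * T ^ m ≤ ‖Complex.exp (S T)‖ ∧ ‖Complex.exp (S T)‖ ≤ C * T ^ m := by
  obtain ⟨B, hB⟩ := h.re
  refine ⟨Real.exp (-B), Real.exp B, Real.exp_pos _, ?_⟩
  filter_upwards [hB, eventually_gt_atTop (0 : ℝ)] with T hT hT0
  have e : T ^ m = Real.exp (m * Real.log T) := by
    rw [← Real.rpow_intCast, Real.rpow_def_of_pos hT0]
    congr 1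
    ring
  rw [Complex.norm_exp, e, ← Real.exp_add, ← Real.exp_add]
  have := abs_le.1 hT
  constructor <;> apply Real.exp_le_exp.2 <;> linarith

/-- one-sided bounds from below -/
theorem ge_iff (r : ℤ) : r ≤ m ↔ ∃ c : ℝ, 0 < c ∧ ∀ᶠ T : ℝ in atTop, c * T ^ r ≤ ‖Complex.exp (S T)‖ := by
  obtain ⟨c, C, hc, hcC⟩ := h.norm_exp
  constructor
  · intro hr
    refine ⟨c, hc, ?_⟩
    filter_upwards [hcC, eventually_ge_atTop (1 : ℝ)] with T hT hT1
    refine le_trans ?_ hT.1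
    exact mul_le_mul_of_nonneg_left (zpow_le_zpow_right₀ hT1 hr) hc.le
  · rintro ⟨c', hc', h'⟩
    by_contra hlt
    push Not at hlt
    have h1 : Tendsto (fun T : ℝ => C * T ^ (m - r)) atTop (𝓝 0) := by
      have := (tendsto_zpow_atTop_zero (𝕜 := ℝ) (n := m - r) (by linarith)).const_mul C
      rwa [mul_zero] at this
    obtain ⟨T, ⟨a1, a2⟩, a3, a4⟩ := ((h1.eventually_lt_const hc').and hcC |>.and
      (h'.and (eventually_gt_atTop (0 : ℝ)))).exists
    have h2 : c' * T ^ r ≤ C * T ^ m := a3.trans a2.2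
    rw [zpow_sub₀ a4.ne'] at a1
    have h3 : 0 < T ^ r := zpow_pos a4 _
    have h4 : C * (T ^ m / T ^ r) = C * T ^ m / T ^ r := by ring
    rw [h4, div_lt_iff₀ h3] at a1
    linarith

/-- one-sided bounds from above -/
theorem le_iff (r : ℤ) : m ≤ r ↔ ∃ C : ℝ, ∀ᶠ T : ℝ in atTop, ‖Complex.exp (S T)‖ ≤ C * T ^ r := by
  obtain ⟨c, C, hc, hcC⟩ := h.norm_exp
  constructor
  · intro hr
    refine ⟨|C|, ?_⟩
    filter_upwards [hcC, eventually_ge_atTop (1 : ℝ)] with T hT hT1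
    refine hT.2.trans ?_
    have h1 : T ^ m ≤ T ^ r := zpow_le_zpow_right₀ hT1 hr
    have h2 : 0 < T ^ m := zpow_pos (by linarith) _
    calc C * T ^ m ≤ |C| * T ^ m := by gcongr; exact le_abs_self C
      _ ≤ |C| * T ^ r := by gcongr
  · rintro ⟨C', h'⟩
    by_contra hlt
    push Not at hlt
    have h1 : Tendsto (fun T : ℝ => C' * T ^ (r - m)) atTop (𝓝 0) := by
      have := (tendsto_zpow_atTop_zero (𝕜 := ℝ) (n := r - m) (by linarith)).const_mul C'
      rwa [mul_zero] at this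
    obtain ⟨T, ⟨a1, a2⟩, a3, a4⟩ := ((h1.eventually_lt_const hc).and hcC |>.and
      (h'.and (eventually_gt_atTop (0 : ℝ)))).exists
    have h2 : c * T ^ m ≤ C' * T ^ r := a2.1.trans a3
    rw [zpow_sub₀ a4.ne'] at a1
    have h3 : 0 < T ^ m := zpow_pos a4 _
    have h4 : C' * (T ^ r / T ^ m) = C' * T ^ r / T ^ m := by ring
    rw [h4, div_lt_iff₀ h3] at a1
    linarith

end Gr

/-- a nonzero limit after division by a power -/
theorem asy_lim_iff {Λ : ℂ} {S : ℝ → ℂ} {m : ℤ} {r₀ : ℂ} (h : Asy Λ S m r₀) (r : ℤ) : m = r ↔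
    ∃ A : ℂ, A ≠ 0 ∧ Tendsto (fun T : ℝ => Complex.exp (S T) / (T : ℂ) ^ r) atTop (𝓝 A) := by
  constructor
  · rintro rfl
    exact ⟨_, div_ne_zero (Complex.exp_ne_zero _) (Complex.exp_ne_zero _), h.exp_lim⟩
  · rintro ⟨A, hA, h1⟩
    have hB : Complex.exp (-(r * Λ)) / A ≠ 0 := div_ne_zero (Complex.exp_ne_zero _) hA
    refine ((h.lead_iff r hB).2 ?_).1
    have e : Complex.exp (-(r * Λ)) / (Complex.exp (-(r * Λ)) / A) = A := by
      have := Complex.exp_ne_zero (-(r * Λ))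
      field_simp
    rwa [e]

end Pool.Agent.X278.OP
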