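import Pool.Agent.X278.OP.Cmp
import Pool.Agent.TH942.ES.NF

/-!
# The system of an elliptic curve over a number field
-/

set_option autoImplicit false

namespace Pool.Agent.X278.OP

open Complex Filter Topology Set Asymptotics
open IsDedekindDomain NumberField
open Pool.Agent.W189.ML Pool.Agent.X287.CR
open Pool.Agent.TH942.ES (GoodV ptsV trV trV_abs alV rt rt_norm rt_prod rt_log sqrt_nm_pos)
open Pool.Agent.H921R2.TatePole (nm two_le_nm)

section gen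

variable {X : Type} {d : ℕ} {θ : ℝ} {q : X → ℕ} {α : X → Fin d → ℂ}

/-- the logarithm of the Euler factor -/
theorem lg_eq (G : CSys θ q α) {s₀ : ℂ} {v : X}
    (h : ∀ i, ‖α v i * exp (-(s₀ * Real.log (q v)))‖ < 1) :
    lg q α s₀ v = -∑ i, log (1 - α v i * exp (-(s₀ * Real.log (q v)))) := by
  set x : ℂ := exp (-(s₀ * Real.log (q v))) with hx
  have hterm : ∀ n : ℕ, cc q α s₀ (v, n) = ∑ i, (α v i * x) ^ (n + 1) / ((n + 1 : ℕ) : ℂ) := by
    intro n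
    have e1 : exp (-(s₀ * lam q (v, n))) = x ^ (n + 1) := by
      rw [hx, ← Complex.exp_nat_mul]
      congr 1
      unfold lam
      push_cast
      ring
    unfold cc
    rw [e1, Finset.sum_mul, Finset.sum_div]
    push_cast
    refine Finset.sum_congr rfl fun i _ => ?_
    rw [mul_pow]
  have hs : ∀ z : ℂ, ‖z‖ < 1 → HasSum (fun n : ℕ => z ^ (n + 1) / ((n + 1 : ℕ) : ℂ)) (-log (1 - z)) := by
    intro z hz
    have := Complex.hasSum_taylorSeries_neg_log hz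
    rw [← hasSum_nat_add_iff' 1] at this
    simpa using this
  have hS : HasSum (fun n : ℕ => cc q α s₀ (v, n)) (∑ i, -log (1 - α v i * x)) := by
    simp only [hterm]
    exact hasSum_sum fun i _ => hs _ (h i)
  unfold lg
  rw [hS.tsum_eq, Finset.sum_neg_distrib]

end gen

variable {K : Type} [Field K] [NumberField K] {a b : 𝓞 K}

/-- the norms of the good primes -/
noncomputable abbrev NN (a b : 𝓞 K) : {v : HeightOneSpectrum (𝓞 K) // GoodV a b v} → ℕ :=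
  fun v => Ideal.absNorm v.1.asIdeal

/-- the roots `α_v`, `β_v`, of absolute value `√q_v` -/
noncomputable def al (a b : 𝓞 K) (v : {v : HeightOneSpectrum (𝓞 K) // GoodV a b v}) : Fin 2 → ℂ :=
  fun i => ((√(nm v.1 : ℝ) : ℝ) : ℂ) * alV a b v i

theorem al_sys (a b : 𝓞 K) : CSys (1 / 2) (NN a b) (al a b) :=
  nf_csys _ _ fun v i => by
    unfold al alV
    rw [norm_mul, Complex.norm_real, Real.norm_eq_abs, abs_of_pos (sqrt_nm_pos v.1)]
    have h1 := rt_norm (trV_abs v.2) i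
    have h2 := sqrt_nm_pos v.1
    rw [← Real.sqrt_eq_rpow]
    calc √(nm v.1 : ℝ) * ‖rt (trV a b v.1) i‖ ≤ √(nm v.1 : ℝ) * 1 := by gcongr
      _ = √(nm v.1 : ℝ) := mul_one _

lemma cpow_nm (v : HeightOneSpectrum (𝓞 K)) (w : ℂ) : (nm v : ℂ) ^ w = exp (w * Real.log (nm v)) := by
  have hp2 : (2 : ℝ) ≤ nm v := by exact_mod_cast two_le_nm v
  have hn0 : (0 : ℝ) < nm v := by linarith
  have hnc : (nm v : ℂ) ≠ 0 := by exact_mod_cast hn0.ne'
  rw [Complex.cpow_def_of_ne_zero hnc, ← Complex.ofReal_natCast, ← Complex.ofReal_log hn0.le]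
  congr 1
  ring

/-- the Euler factor -/
theorem fac_al (v : {v : HeightOneSpectrum (𝓞 K) // GoodV a b v}) (s : ℂ) :
    fac (NN a b) (al a b) s v =
      (1 - ((nm v.1 : ℂ) - ptsV a b v.1) * (nm v.1 : ℂ) ^ (-s) + (nm v.1 : ℂ) ^ (1 - 2 * s))⁻¹ := by
  have hp2 : (2 : ℝ) ≤ nm v.1 := by exact_mod_cast two_le_nm v.1
  have hn0 : (0 : ℝ) < nm v.1 := by linarith
  have h1 := sqrt_nm_pos v.1
  have h1c : ((√(nm v.1 : ℝ) : ℝ) : ℂ) ≠ 0 := by exact_mod_cast h1.ne'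
  have hnc : (nm v.1 : ℂ) ≠ 0 := by exact_mod_cast hn0.ne'
  have h2 : ((√(nm v.1 : ℝ) : ℝ) : ℂ) ^ 2 = nm v.1 := by
    rw [← Complex.ofReal_pow, Real.sq_sqrt hn0.le]
    push_cast
    rfl
  unfold fac
  rw [Fin.prod_univ_two, ← mul_inv]
  congr 1
  set r : ℂ := ((√(nm v.1 : ℝ) : ℝ) : ℂ) with hr
  set x : ℂ := (nm v.1 : ℂ) ^ (-s) with hx
  have hNN : ((NN a b v : ℕ) : ℂ) ^ (-s) = x := rfl
  rw [hNN]
  have e1 : (nm v.1 : ℂ) ^ (1 - 2 * s) = (r * x) ^ 2 := by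
    rw [mul_pow, h2, hx, ← Complex.cpow_nat_mul]
    rw [Complex.cpow_sub _ _ hnc, Complex.cpow_one]
    rw [show ((2 : ℕ) : ℂ) * -s = -(2 * s) by push_cast; ring, Complex.cpow_neg, div_eq_mul_inv]
  have e2 := rt_prod (trV_abs v.2) (r * x)
  have e3 : (1 - al a b v 0 * x) * (1 - al a b v 1 * x) =
      (1 - rt (trV a b v.1) 0 * (r * x)) * (1 - rt (trV a b v.1) 1 * (r * x)) := by
    unfold al alV
    ring
  rw [e3, e2, e1]
  have e4 : 2 * (trV a b v.1 : ℂ) * (r * x) = ((nm v.1 : ℂ) - ptsV a b v.1) * x := by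
    unfold trV
    push_cast
    rw [← hr]
    field_simp
  rw [e4]

/-- the Euler factor of the squares -/
theorem fac_sq (v : {v : HeightOneSpectrum (𝓞 K) // GoodV a b v}) (s : ℂ) :
    fac (NN a b) (sq (al a b)) s v =
      (1 - (((nm v.1 : ℂ) - ptsV a b v.1) ^ 2 - 2 * nm v.1) * (nm v.1 : ℂ) ^ (-s) +
        (nm v.1 : ℂ) ^ (2 - 2 * s))⁻¹ := by
  have hp2 : (2 : ℝ) ≤ nm v.1 := by exact_mod_cast two_le_nm v.1
  have hn0 : (0 : ℝ) < nm v.1 := by linarith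
  have h1 := sqrt_nm_pos v.1
  have h1c : ((√(nm v.1 : ℝ) : ℝ) : ℂ) ≠ 0 := by exact_mod_cast h1.ne'
  have hnc : (nm v.1 : ℂ) ≠ 0 := by exact_mod_cast hn0.ne'
  have h2 : ((√(nm v.1 : ℝ) : ℝ) : ℂ) ^ 2 = nm v.1 := by
    rw [← Complex.ofReal_pow, Real.sq_sqrt hn0.le]
    push_cast
    rfl
  unfold fac
  rw [Fin.prod_univ_two, ← mul_inv]
  congr 1
  set r : ℂ := ((√(nm v.1 : ℝ) : ℝ) : ℂ) with hr
  set x : ℂ := (nm v.1 : ℂ) ^ (-s) with hx
  have hNN : ((NN a b v : ℕ) : ℂ) ^ (-s) = x := rfl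
  rw [hNN]
  have e1 : (nm v.1 : ℂ) ^ (2 - 2 * s) = (r ^ 2 * x) ^ 2 := by
    rw [mul_pow, h2, hx, ← Complex.cpow_nat_mul]
    rw [Complex.cpow_sub _ _ hnc]
    have h3 : (nm v.1 : ℂ) ^ (2 : ℂ) = (nm v.1 : ℂ) ^ 2 := by
      have := Complex.cpow_natCast (nm v.1 : ℂ) 2
      simpa using this
    rw [h3, show ((2 : ℕ) : ℂ) * -s = -(2 * s) by push_cast; ring, Complex.cpow_neg, div_eq_mul_inv]
  -- the roots
  have ht := trV_abs v.2
  set t : ℝ := trV a b v.1 with htd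
  have p1 : rt t 0 + rt t 1 = 2 * t := by
    have e0 : rt t 0 = t + √(1 - t ^ 2) * I := rfl
    have e1 : rt t 1 = t - √(1 - t ^ 2) * I := rfl
    rw [e0, e1]; ring
  have p2 : rt t 0 * rt t 1 = 1 := by
    have h3 := rt_prod ht 1
    have h4 : (1 - rt t 0 * 1) * (1 - rt t 1 * 1) = 1 - (rt t 0 + rt t 1) + rt t 0 * rt t 1 := by ring
    rw [h4, p1] at h3
    linear_combination h3
  have e3 : (1 - sq (al a b) v 0 * x) * (1 - sq (al a b) v 1 * x) =
      1 - ((rt t 0 + rt t 1) ^ 2 - 2 * (rt t 0 * rt t 1)) * (r ^ 2 * x) +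
        (rt t 0 * rt t 1) ^ 2 * (r ^ 2 * x) ^ 2 := by
    unfold sq al alV
    rw [← htd]
    ring
  rw [e3, p1, p2, e1]
  have e4 : 2 * (t : ℂ) * r = (nm v.1 : ℂ) - ptsV a b v.1 := by
    rw [htd]
    unfold trV
    push_cast
    rw [← hr]
    field_simp
  rw [← e4, ← h2]
  ring

/-- the logarithm of the factor at `1` -/
theorem lg_al (v : {v : HeightOneSpectrum (𝓞 K) // GoodV a b v}) :
    -lg (NN a b) (al a b) 1 v = ((Real.log (((ptsV a b v.1 : ℝ) + 1) / nm v.1) : ℝ) : ℂ) := by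
  have hp2 : (2 : ℝ) ≤ nm v.1 := by exact_mod_cast two_le_nm v.1
  have hn0 : (0 : ℝ) < nm v.1 := by linarith
  have h1 := sqrt_nm_pos v.1
  have h1c : ((√(nm v.1 : ℝ) : ℝ) : ℂ) ≠ 0 := by exact_mod_cast h1.ne'
  have hnc : (nm v.1 : ℂ) ≠ 0 := by exact_mod_cast hn0.ne'
  have h2 : √(nm v.1 : ℝ) ^ 2 = nm v.1 := Real.sq_sqrt hn0.le
  have h2c : ((√(nm v.1 : ℝ) : ℝ) : ℂ) ^ 2 = nm v.1 := by
    rw [← Complex.ofReal_pow, h2]
    push_cast
    rfl
  have hx : exp (-((1 : ℂ) * Real.log (NN a b v))) = (nm v.1 : ℂ)⁻¹ := by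
    have := cpow_nm v.1 (-1)
    rw [Complex.cpow_neg_one] at this
    rw [this]
    congr 1
    have : Real.log (NN a b v) = Real.log (nm v.1) := rfl
    rw [this]
    ring
  have hterm : ∀ i, al a b v i * exp (-((1 : ℂ) * Real.log (NN a b v))) =
      rt (trV a b v.1) i / ((√(nm v.1 : ℝ) : ℝ) : ℂ) := by
    intro i
    rw [hx]
    unfold al alV
    rw [← h2c]
    field_simp
  have hlt : ∀ i, ‖al a b v i * exp (-((1 : ℂ) * Real.log (NN a b v)))‖ < 1 := by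
    intro i
    rw [hterm, norm_div, Complex.norm_real, Real.norm_eq_abs, abs_of_pos h1, div_lt_one h1]
    refine (rt_norm (trV_abs v.2) i).trans_lt ?_
    rw [Real.lt_sqrt (by norm_num)]
    linarith
  rw [lg_eq (al_sys a b) hlt, neg_neg]
  simp only [hterm]
  rw [rt_log (trV_abs v.2) hp2]
  congr 2
  have e1 : 2 * trV a b v.1 / √(nm v.1 : ℝ) = ((nm v.1 : ℝ) - ptsV a b v.1) / (√(nm v.1 : ℝ) ^ 2) := by
    unfold trV
    field_simp
  rw [e1, h2]
  field_simp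
  ring

end Pool.Agent.X278.OP
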