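import Pool.Agent.X278.OP.Tw

/-!
# Consequences of an asymptotic formula with arbitrary coefficients
-/

set_option autoImplicit false

namespace Pool.Agent.X278.OP

open Complex Filter Topology Set Asymptotics
open Pool.Agent.X287.CR

namespace Asc

variable {Λ : ℂ} {S : ℝ → ℂ} {κ C : ℂ} (h : Asc Λ S κ C)
include h

theorem tend : Tendsto (fun T : ℝ => S T - (κ * (Real.log T - Λ) + C)) atTop (𝓝 0) :=
  IsBigO.trans_tendsto h (tendsto_const_nhds.div_atTop tendsto_id)

theorem lim : Tendsto (fun T : ℝ => S T / Real.log T) atTop (𝓝 κ) := by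
  have h1 : Tendsto (fun T : ℝ => ((Real.log T)⁻¹ : ℝ)) atTop (𝓝 0) :=
    Real.tendsto_log_atTop.inv_tendsto_atTop
  have h2 : Tendsto (fun T : ℝ => (((Real.log T)⁻¹ : ℝ) : ℂ)) atTop (𝓝 0) := by
    have := (Complex.continuous_ofReal.tendsto 0).comp h1
    rwa [Complex.ofReal_zero] at this
  have h3 := (h.tend.mul h2).add ((h2.const_mul (C - κ * Λ)).add_const κ)
  simp only [mul_zero, zero_add] at h3
  refine h3.congr' ?_
  filter_upwards [eventually_gt_atTop (1 : ℝ)] with T hT
  have hlog : (Real.log T : ℂ) ≠ 0 := by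
    have := Real.log_pos hT
    exact_mod_cast this.ne'
  rw [Complex.ofReal_inv]
  field_simp
  ring

theorem exp_lim : Tendsto (fun T : ℝ => Complex.exp (S T) / (T : ℂ) ^ κ) atTop
    (𝓝 (Complex.exp (C - κ * Λ))) := by
  have h1 := ((Complex.continuous_exp.tendsto 0).comp h.tend).mul_const (Complex.exp (C - κ * Λ))
  rw [Complex.exp_zero, one_mul] at h1
  refine h1.congr' ?_
  filter_upwards [eventually_gt_atTop (0 : ℝ)] with T hT
  have hTc : (T : ℂ) ≠ 0 := by exact_mod_cast hT.ne'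
  have hTm : (T : ℂ) ^ κ = Complex.exp (κ * Real.log T) := by
    rw [Complex.cpow_def_of_ne_zero hTc, ← Complex.ofReal_log hT.le]
    congr 1
    ring
  simp only [Function.comp_apply]
  rw [hTm, ← Complex.exp_sub, ← Complex.exp_add]
  congr 1
  ring

theorem lim_iff (r : ℂ) : κ = r ↔ Tendsto (fun T : ℝ => S T / Real.log T) atTop (𝓝 r) := by
  constructor
  · rintro rfl
    exact h.lim
  · intro h1
    exact tendsto_nhds_unique h.lim h1

/-- real exponents -/
theorem re {k : ℝ} (hk : κ = (k : ℂ)) : ∃ B : ℝ, ∀ᶠ T : ℝ in atTop, |(S T).re - k * Real.log T| ≤ B := by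
  have h1 := h.tend.norm
  rw [norm_zero] at h1
  refine ⟨1 + ‖C - κ * Λ‖, ?_⟩
  filter_upwards [h1.eventually_lt_const (show (0 : ℝ) < 1 by norm_num)] with T hT
  have h2 : (S T - κ * Real.log T).re = (S T).re - k * Real.log T := by
    rw [hk, Complex.sub_re, Complex.re_ofReal_mul, Complex.ofReal_re]
  rw [← h2]
  refine (Complex.abs_re_le_norm _).trans ?_
  have e : S T - κ * Real.log T = (S T - (κ * (Real.log T - Λ) + C)) + (C - κ * Λ) := by ring
  rw [e]
  exact (norm_add_le _ _).trans (add_le_add hT.le le_rfl)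

end Asc

/-- a bound for the growth exponent -/
theorem le_of_bound {S : ℝ → ℂ} {k k₀ : ℝ}
    (h : ∃ B : ℝ, ∀ᶠ T : ℝ in atTop, |(S T).re - k * Real.log T| ≤ B) :
    k ≤ k₀ ↔ ∃ B : ℝ, ∀ᶠ T : ℝ in atTop, ‖Complex.exp (S T)‖ ≤ B * T ^ k₀ := by
  obtain ⟨B, hB⟩ := h
  constructor
  · intro hk
    refine ⟨Real.exp B, ?_⟩
    filter_upwards [hB, eventually_ge_atTop (1 : ℝ)] with T h1 h2
    have hT0 : 0 < T := by linarith
    rw [Complex.norm_exp, Real.rpow_def_of_pos hT0, ← Real.exp_add]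
    apply Real.exp_le_exp.2
    have h3 := (abs_le.1 h1).2
    have h4 := Real.log_nonneg h2
    nlinarith
  · rintro ⟨B', h'⟩
    by_contra hlt
    push Not at hlt
    have h1 : Tendsto (fun T : ℝ => (k - k₀) * Real.log T) atTop atTop :=
      Real.tendsto_log_atTop.const_mul_atTop (by linarith)
    obtain ⟨T, ⟨a1, a2⟩, a3, a4⟩ := ((h1.eventually_gt_atTop (Real.log (|B'| + 1) + B)).and hB |>.and
      (h'.and (eventually_gt_atTop (0 : ℝ)))).exists
    rw [Complex.norm_exp, Real.rpow_def_of_pos a4] at a3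
    have h3 := (abs_le.1 a2).1
    have hB1 : (0 : ℝ) < |B'| + 1 := by positivity
    have h4 : Real.exp (S T).re ≤ (|B'| + 1) * Real.exp (Real.log T * k₀) := by
      refine a3.trans ?_
      gcongr
      linarith [le_abs_self B']
    have h5 : (S T).re ≤ Real.log (|B'| + 1) + Real.log T * k₀ := by
      have := Real.log_le_log (Real.exp_pos _) h4
      rwa [Real.log_exp, Real.log_mul hB1.ne' (Real.exp_pos _).ne', Real.log_exp] at this
    nlinarith

end Pool.Agent.X278.OP
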