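import Pool.Agent.X278.OP.Lip

/-!
# Products over the primes only, against products over prime powers
-/

set_option autoImplicit false

namespace Pool.Agent.X278.OP

open Complex Filter Topology Set Asymptotics
open Pool.Agent.W189.ML Pool.Agent.X287.CR

variable {X : Type} {d : ℕ} {θ : ℝ} {q : X → ℕ} {α : X → Fin d → ℂ}

/-- the squares of the roots -/
def sq (α : X → Fin d → ℂ) : X → Fin d → ℂ := fun v i => α v i ^ 2

theorem sq_sys (G : CSys θ q α) : CSys (2 * θ) q (sq α) where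
  cnt := G.cnt
  two_le := G.two_le
  sum := G.sum
  le := fun v i => by
    unfold sq
    have h1 : (q v : ℝ) ^ (2 * θ) = ((q v : ℝ) ^ θ) ^ 2 := by
      rw [← Real.rpow_natCast, ← Real.rpow_mul (G.qpos v).le]
      congr 1
      push_cast
      ring
    rw [norm_pow, h1]
    exact pow_le_pow_left₀ (norm_nonneg _) (G.le v i) 2

/-- the logarithm of the Euler factor at `s₀` -/
noncomputable def lg (q : X → ℕ) (α : X → Fin d → ℂ) (s₀ : ℂ) (v : X) : ℂ :=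
  ∑' k : ℕ, cc q α s₀ (v, k)

/-- the sum over the places (no prime powers) -/
noncomputable def Sp (q : X → ℕ) (α : X → Fin d → ℂ) (s₀ : ℂ) (γ T : ℝ) : ℂ :=
  ∑' v, -(lg q α s₀ v) * Wt γ (Real.log (q v) / T)

theorem split {g : X × ℕ → ℂ} (hg : Summable g) :
    ∑' x, g x = ∑' v, g (v, 0) + ∑' x : X × ℕ, g (x.1, x.2 + 1) ∧
    Summable (fun v => g (v, 0)) ∧ Summable (fun x : X × ℕ => g (x.1, x.2 + 1)) := by
  have h0 : Summable (fun v => g (v, 0)) :=
    hg.comp_injective (i := fun v : X => (v, 0)) (fun a b h => by simpa using h)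
  have h1 : Summable (fun x : X × ℕ => g (x.1, x.2 + 1)) :=
    hg.comp_injective (i := fun x : X × ℕ => (x.1, x.2 + 1)) (fun a b h => by
      simp only [Prod.mk.injEq, add_left_inj] at h
      exact Prod.ext h.1 h.2)
  refine ⟨?_, h0, h1⟩
  rw [hg.tsum_prod' (fun v => hg.prod_factor v), h1.tsum_prod' (fun v => h1.prod_factor v)]
  have h2 : ∀ v, ∑' k, g (v, k) = g (v, 0) + ∑' k, g (v, k + 1) := fun v =>
    (hg.prod_factor v).tsum_eq_zero_add
  simp only [h2]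
  exact h0.tsum_add h1.prod

section

variable (G : CSys θ q α)
include G

lemma half_le (v : X) : (q v : ℝ) ^ (-(1 / 2) : ℝ) ≤ 3 / 4 := by
  have hq := G.two_le' v
  have h1 : (q v : ℝ) ^ (-(1 / 2) : ℝ) = (√(q v : ℝ))⁻¹ := by
    rw [Real.rpow_neg (G.qpos v).le, Real.sqrt_eq_rpow]
  rw [h1]
  have h2 : (4 / 3 : ℝ) ≤ √(q v : ℝ) := by
    apply Real.le_sqrt_of_sq_le
    norm_num
    linarith
  calc (√(q v : ℝ))⁻¹ ≤ (4 / 3 : ℝ)⁻¹ := inv_anti₀ (by norm_num) h2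
    _ = 3 / 4 := by norm_num

lemma rpow_half {s₀ : ℂ} (hs₀ : θ + 1 / 2 ≤ s₀.re) (v : X) :
    (q v : ℝ) ^ (θ - s₀.re) ≤ (q v : ℝ) ^ (-(1 / 2) : ℝ) :=
  Real.rpow_le_rpow_of_exponent_le (by linarith [G.two_le' v]) (by linarith)

lemma cc_half {s₀ : ℂ} (hs₀ : θ + 1 / 2 ≤ s₀.re) (x : X × ℕ) :
    ‖cc q α s₀ x‖ ≤ d * ((q x.1 : ℝ) ^ (-(1 / 2) : ℝ)) ^ (x.2 + 1) := by
  refine (G.cc_le s₀ x).trans ?_
  have h1 := rpow_half G hs₀ x.1
  have h2 := (Real.rpow_pos_of_pos (G.qpos x.1) (θ - s₀.re)).le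
  gcongr

lemma cc2_half {s₀ : ℂ} (hs₀ : θ + 1 / 2 ≤ s₀.re) (v : X) (k : ℕ) :
    ‖cc q (sq α) (2 * s₀) (v, k + 1)‖ ≤ d * ((q v : ℝ) ^ (-(1 / 2) : ℝ)) ^ (k + 3) := by
  refine ((sq_sys G).cc_le (2 * s₀) (v, k + 1)).trans ?_
  have h0 := (Real.rpow_pos_of_pos (G.qpos v) (-(1 / 2) : ℝ)).le
  have h1 : (q v : ℝ) ^ (2 * θ - (2 * s₀).re) ≤ ((q v : ℝ) ^ (-(1 / 2) : ℝ)) ^ 2 := by
    rw [← Real.rpow_natCast, ← Real.rpow_mul (G.qpos v).le]
    apply Real.rpow_le_rpow_of_exponent_le (by linarith [G.two_le' v])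
    have : (2 * s₀).re = 2 * s₀.re := by simp
    rw [this]
    push_cast
    linarith
  have h2 := (Real.rpow_pos_of_pos (G.qpos v) (2 * θ - (2 * s₀).re)).le
  have h3 : (q v : ℝ) ^ (-(1 / 2) : ℝ) ≤ 1 := (half_le G v).trans (by norm_num)
  refine mul_le_mul_of_nonneg_left ?_ (Nat.cast_nonneg _)
  calc ((q v : ℝ) ^ (2 * θ - (2 * s₀).re)) ^ (k + 1 + 1) ≤ (((q v : ℝ) ^ (-(1 / 2) : ℝ)) ^ 2) ^ (k + 1 + 1) :=
        pow_le_pow_left₀ h2 h1 _
    _ = ((q v : ℝ) ^ (-(1 / 2) : ℝ)) ^ (2 * (k + 1 + 1)) := by rw [pow_mul]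
    _ ≤ ((q v : ℝ) ^ (-(1 / 2) : ℝ)) ^ (k + 3) := pow_le_pow_of_le_one h0 h3 (by omega)

lemma geo_sum : Summable fun x : X × ℕ => (q x.1 : ℝ) ^ (-(5 / 4) : ℝ) * (((x.2 : ℝ) + 2) * (3 / 4) ^ x.2) := by
  have h1 : Summable fun k : ℕ => ((k : ℝ) + 2) * (3 / 4 : ℝ) ^ k := by
    have h2 : Summable fun k : ℕ => (k : ℝ) ^ 1 * (3 / 4 : ℝ) ^ k :=
      summable_pow_mul_geometric_of_norm_lt_one 1 (by norm_num)
    have h3 : Summable fun k : ℕ => 2 * (3 / 4 : ℝ) ^ k :=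
      (summable_geometric_of_lt_one (by norm_num) (by norm_num)).mul_left 2
    refine (h2.add h3).congr fun k => ?_
    ring
  exact (G.sum (5 / 4) (by norm_num)).mul_of_nonneg h1
    (fun v => (Real.rpow_pos_of_pos (G.qpos v) _).le) (fun k => by positivity)

lemma h_le (v : X) (k : ℕ) :
    d * ((q v : ℝ) ^ (-(1 / 2) : ℝ)) ^ (k + 3) * (((k : ℝ) + 2) * Real.log (q v)) ≤
      4 * d * ((q v : ℝ) ^ (-(5 / 4) : ℝ) * (((k : ℝ) + 2) * (3 / 4) ^ k)) := by
  have hq := G.qpos v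
  set r := (q v : ℝ) ^ (-(1 / 2) : ℝ) with hr
  have hr0 : 0 ≤ r := (Real.rpow_pos_of_pos hq _).le
  have hr1 : r ≤ 3 / 4 := half_le G v
  have h1 : Real.log (q v) ≤ (q v : ℝ) ^ (1 / 4 : ℝ) / (1 / 4) :=
    Real.log_le_rpow_div hq.le (by norm_num)
  have h2 : r ^ 3 * (q v : ℝ) ^ (1 / 4 : ℝ) = (q v : ℝ) ^ (-(5 / 4) : ℝ) := by
    rw [hr, ← Real.rpow_natCast, ← Real.rpow_mul hq.le, ← Real.rpow_add hq]
    congr 1
    norm_num
  have h3 : r ^ k ≤ (3 / 4) ^ k := pow_le_pow_left₀ hr0 hr1 k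
  have h4 := (G.logpos v).le
  calc d * r ^ (k + 3) * (((k : ℝ) + 2) * Real.log (q v))
      = d * (r ^ 3 * Real.log (q v)) * (((k : ℝ) + 2) * r ^ k) := by ring
    _ ≤ d * (r ^ 3 * ((q v : ℝ) ^ (1 / 4 : ℝ) / (1 / 4))) * (((k : ℝ) + 2) * (3 / 4) ^ k) := by gcongr
    _ = 4 * d * ((r ^ 3 * (q v : ℝ) ^ (1 / 4 : ℝ)) * (((k : ℝ) + 2) * (3 / 4) ^ k)) := by ring
    _ = _ := by rw [h2]

/-- summability of the terms with the weight at the prime -/
lemma b_summable {s₀ : ℂ} (hs₀ : θ + 1 / 2 ≤ s₀.re) (γ : ℝ) {T : ℝ} (hT : 0 < T) :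
    Summable fun x : X × ℕ => ‖cc q α s₀ x * Wt γ (Real.log (q x.1) / T)‖ := by
  have h1 : Summable fun x : X × ℕ => (q x.1 : ℝ) ^ (-(2 : ℝ)) * (3 / 4 : ℝ) ^ x.2 :=
    (G.sum 2 (by norm_num)).mul_of_nonneg (summable_geometric_of_lt_one (by norm_num) (by norm_num))
      (fun v => (Real.rpow_pos_of_pos (G.qpos v) _).le) (fun k => by positivity)
  refine Summable.of_nonneg_of_le (fun x => norm_nonneg _) (fun x => ?_)
    (h1.mul_left (d * (Real.exp (Real.exp (2 * T)) + 1)))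
  have h0 : 0 ≤ Real.log (q x.1) / T := div_nonneg (G.logpos x.1).le hT.le
  have h2 := om_le (a := 2 * T) (v := Real.log (q x.1) / T) (by linarith) h0
  have h3 : 2 * T * (Real.log (q x.1) / T) = 2 * Real.log (q x.1) := by field_simp
  have h4 : Real.exp (-(2 * Real.log (q x.1))) = (q x.1 : ℝ) ^ (-(2 : ℝ)) := by
    rw [Real.rpow_def_of_pos (G.qpos x.1)]
    congr 1
    ring
  rw [h3, h4] at h2
  have h5 := cc_half G hs₀ x
  set r := (q x.1 : ℝ) ^ (-(1 / 2) : ℝ) with hr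
  have hr0 : 0 ≤ r := (Real.rpow_pos_of_pos (G.qpos x.1) _).le
  have hr1 : r ≤ 3 / 4 := half_le G x.1
  have h6 : r ^ (x.2 + 1) ≤ (3 / 4) ^ x.2 := by
    calc r ^ (x.2 + 1) ≤ (3 / 4) ^ (x.2 + 1) := pow_le_pow_left₀ hr0 hr1 _
      _ = (3 / 4) ^ x.2 * (3 / 4) := pow_succ _ _
      _ ≤ (3 / 4) ^ x.2 * 1 := by gcongr; norm_num
      _ = _ := mul_one _
  rw [norm_mul, norm_Wt γ h0]
  have h7 := om_nonneg h0
  calc ‖cc q α s₀ x‖ * om (Real.log (q x.1) / T)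
      ≤ (d * (3 / 4) ^ x.2) * ((Real.exp (Real.exp (2 * T)) + 1) * (q x.1 : ℝ) ^ (-(2 : ℝ))) := by
        refine mul_le_mul (h5.trans ?_) h2 h7 (by positivity)
        gcongr
    _ = _ := by ring

/-- absolute convergence of the sum over the places -/
theorem Sp_summable {s₀ : ℂ} (hs₀ : θ + 1 / 2 ≤ s₀.re) (γ : ℝ) {T : ℝ} (hT : 0 < T) :
    Summable fun v => ‖-(lg q α s₀ v) * Wt γ (Real.log (q v) / T)‖ := by
  have h1 := b_summable G hs₀ γ hT
  refine Summable.of_nonneg_of_le (fun x => norm_nonneg _) (fun v => ?_) h1.prod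
  have h2 : -(lg q α s₀ v) * Wt γ (Real.log (q v) / T) =
      -∑' k, cc q α s₀ (v, k) * Wt γ (Real.log (q v) / T) := by
    unfold lg
    rw [tsum_mul_right, neg_mul]
  rw [h2, norm_neg]
  exact norm_tsum_le_tsum_norm (h1.prod_factor v)

theorem Sp_eq {s₀ : ℂ} (hs₀ : θ + 1 / 2 ≤ s₀.re) (γ : ℝ) {T : ℝ} (hT : 0 < T) :
    Sp q α s₀ γ T = -∑' x : X × ℕ, cc q α s₀ x * Wt γ (Real.log (q x.1) / T) := by
  have h1 := (b_summable G hs₀ γ hT).of_norm
  rw [h1.tsum_prod' (fun v => h1.prod_factor v), ← tsum_neg]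
  refine tsum_congr fun v => ?_
  unfold lg
  simp only [tsum_mul_right, neg_mul]

omit G in
theorem tm_Wt (s₀ : ℂ) (γ T : ℝ) (x : X × ℕ) : tm q α s₀ γ T x = -(cc q α s₀ x * Wt γ (lam q x / T)) := by
  unfold tm Wt om cc
  push_cast
  rw [div_eq_mul_inv, mul_inv, div_eq_mul_inv]
  ring

omit G in
theorem Su_Wt (s₀ : ℂ) (γ T : ℝ) : Su q α s₀ γ T = -∑' x, cc q α s₀ x * Wt γ (lam q x / T) := by
  unfold Su
  rw [← tsum_neg]
  exact tsum_congr fun x => tm_Wt s₀ γ T x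

/-- **the comparison** -/
theorem cmp {s₀ : ℂ} (hs₀ : θ + 1 / 2 ≤ s₀.re) (γ : ℝ) : ∃ C : ℝ, 0 ≤ C ∧ ∀ T : ℝ, 0 < T →
    ‖Sp q α s₀ γ T - Su q α s₀ γ T -
      (1 / 2) * (Su q (sq α) (2 * s₀) γ T - Su q (sq α) (2 * s₀) γ (T / 2))‖ ≤ C / T := by
  obtain ⟨Cw, hCw, hlip⟩ := Wt_lip γ
  set h : X × ℕ → ℝ := fun x => 4 * d * ((q x.1 : ℝ) ^ (-(5 / 4) : ℝ) * (((x.2 : ℝ) + 2) * (3 / 4) ^ x.2))
    with hh
  have hhs : Summable h := (geo_sum G).mul_left (4 * (d : ℝ))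
  have hh0 : ∀ x, 0 ≤ h x := fun x => by
    have := (Real.rpow_pos_of_pos (G.qpos x.1) (-(5 / 4) : ℝ)).le
    rw [hh]
    positivity
  refine ⟨2 * Cw * ∑' x, h x, by have : 0 ≤ ∑' x, h x := tsum_nonneg hh0; positivity, fun T hT => ?_⟩
  have hT2 : 0 < T / 2 := by positivity
  have G2 := sq_sys G
  have hs1 : θ ≤ s₀.re := by linarith
  have hs2 : 2 * θ ≤ (2 * s₀).re := by
    have : (2 * s₀).re = 2 * s₀.re := by simp
    rw [this]
    linarith
  -- the terms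
  set t : X × ℕ → ℂ := fun x => cc q α s₀ x * Wt γ (lam q x / T) with ht
  set b : X × ℕ → ℂ := fun x => cc q α s₀ x * Wt γ (Real.log (q x.1) / T) with hb
  set u : X × ℕ → ℂ := fun x => cc q (sq α) (2 * s₀) x * Wt γ (lam q x / T) with hu
  set w : X × ℕ → ℂ := fun x => cc q (sq α) (2 * s₀) x * Wt γ (lam q x / (T / 2)) with hw
  have st : Summable t := by
    have := (G.tm_summable hs1 γ hT).of_norm
    refine this.neg.congr fun x => ?_
    rw [tm_Wt, neg_neg]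
  have sb : Summable b := (b_summable G hs₀ γ hT).of_norm
  have su : Summable u := by
    have := (G2.tm_summable hs2 γ hT).of_norm
    refine this.neg.congr fun x => ?_
    rw [tm_Wt, neg_neg]
  have sw : Summable w := by
    have := (G2.tm_summable hs2 γ hT2).of_norm
    refine this.neg.congr fun x => ?_
    rw [tm_Wt, neg_neg]
  set e : X × ℕ → ℂ := fun x => t x - b x with he
  set f : X × ℕ → ℂ := fun x => w x - u x with hf
  have se : Summable e := st.sub sb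
  have sf : Summable f := sw.sub su
  obtain ⟨e1, -, se1⟩ := split se
  obtain ⟨e2, se20, se2⟩ := split se1
  obtain ⟨f1, sf0, sf1⟩ := split sf
  have he0 : ∀ v, e (v, 0) = 0 := by
    intro v
    simp only [he, ht, hb]
    have : lam q (v, 0) = Real.log (q v) := by unfold lam; simp
    rw [this, sub_self]
  have he1 : ∀ v, e (v, 0 + 1) = (1 / 2) * f (v, 0) := by
    intro v
    have l1 : lam q (v, 0 + 1) = 2 * Real.log (q v) := by unfold lam; push_cast; ring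
    have l2 : lam q (v, 0) = Real.log (q v) := by unfold lam; simp
    have l3 : cc q α s₀ (v, 0 + 1) = (1 / 2) * cc q (sq α) (2 * s₀) (v, 0) := by
      unfold cc
      simp only [l1, l2, sq]
      have h1 : exp (-(s₀ * ((2 * Real.log (q v) : ℝ) : ℂ))) =
          exp (-(2 * s₀ * (Real.log (q v) : ℝ))) := by
        congr 1
        push_cast
        ring
      rw [h1]
      simp only [zero_add, pow_one]
      push_cast
      ring_nf
    have l4 : (2 * Real.log (q v)) / T = Real.log (q v) / (T / 2) := by field_simp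
    simp only [he, ht, hb, hf, hw, hu, l1, l2, l3, l4]
    ring
  have hE : Sp q α s₀ γ T - Su q α s₀ γ T -
      (1 / 2) * (Su q (sq α) (2 * s₀) γ T - Su q (sq α) (2 * s₀) γ (T / 2)) =
      ∑' x : X × ℕ, (e (x.1, x.2 + 1 + 1) - (1 / 2) * f (x.1, x.2 + 1)) := by
    rw [Sp_eq G hs₀ γ hT, Su_Wt, Su_Wt, Su_Wt]
    have k1 : ∑' x, e x = ∑' x, t x - ∑' x, b x := st.tsum_sub sb
    have k2 : ∑' x, f x = ∑' x, w x - ∑' x, u x := sw.tsum_sub su
    have k3 : ∑' v, e (v, 0) = 0 := by simp [he0]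
    have k4 : ∑' v, e (v, 0 + 1) = (1 / 2) * ∑' v, f (v, 0) := by
      rw [← tsum_mul_left]
      exact tsum_congr he1
    have k5 : ∑' x : X × ℕ, (e (x.1, x.2 + 1 + 1) - (1 / 2) * f (x.1, x.2 + 1)) =
        ∑' x : X × ℕ, e (x.1, x.2 + 1 + 1) - (1 / 2) * ∑' x : X × ℕ, f (x.1, x.2 + 1) := by
      rw [← tsum_mul_left]
      exact se2.tsum_sub (sf1.mul_left _)
    have e2' : ∑' x : X × ℕ, e (x.1, x.2 + 1) =
        ∑' v, e (v, 0 + 1) + ∑' x : X × ℕ, e (x.1, x.2 + 1 + 1) := e2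
    rw [k5]
    linear_combination (-1 : ℂ) * k1 + e1 + k3 + e2' + k4 + (1 / 2) * k2 - (1 / 2) * f1
  rw [hE]
  have hbd : ∀ x : X × ℕ, ‖e (x.1, x.2 + 1 + 1) - (1 / 2) * f (x.1, x.2 + 1)‖ ≤ 2 * Cw / T * h x := by
    rintro ⟨v, k⟩
    have hl := (G.logpos v).le
    have hT0 := hT.le
    have n1 : ‖e (v, k + 1 + 1)‖ ≤ Cw / T * h (v, k) := by
      have m1 : e (v, k + 1 + 1) = cc q α s₀ (v, k + 2) *
          (Wt γ (lam q (v, k + 2) / T) - Wt γ (Real.log (q v) / T)) := by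
        simp only [he, ht, hb]
        ring
      have l1 : lam q (v, k + 2) = ((k : ℝ) + 3) * Real.log (q v) := by unfold lam; push_cast; ring
      have m2 := hlip (lam q (v, k + 2) / T) (Real.log (q v) / T)
        (div_nonneg (G.lam_nonneg _) hT0) (div_nonneg hl hT0)
      have m3 : |lam q (v, k + 2) / T - Real.log (q v) / T| = (((k : ℝ) + 2) * Real.log (q v)) / T := by
        rw [l1, ← sub_div, abs_of_nonneg]
        · congr 1; ring
        · apply div_nonneg _ hT0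
          have : (0 : ℝ) ≤ k := Nat.cast_nonneg _
          nlinarith
      rw [m3] at m2
      have m4 := cc_half G hs₀ (v, k + 2)
      have m5 := h_le G v k
      rw [m1, norm_mul]
      have m6 : (0 : ℝ) ≤ d * ((q v : ℝ) ^ (-(1 / 2) : ℝ)) ^ (k + 3) := by
        have := (Real.rpow_pos_of_pos (G.qpos v) (-(1 / 2) : ℝ)).le
        positivity
      calc _ ≤ (d * ((q v : ℝ) ^ (-(1 / 2) : ℝ)) ^ (k + 3)) * (Cw * ((((k : ℝ) + 2) * Real.log (q v)) / T)) :=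
            mul_le_mul m4 m2 (norm_nonneg _) m6
        _ = Cw / T * (d * ((q v : ℝ) ^ (-(1 / 2) : ℝ)) ^ (k + 3) * (((k : ℝ) + 2) * Real.log (q v))) := by ring
        _ ≤ _ := mul_le_mul_of_nonneg_left m5 (by positivity)
    have n2 : ‖f (v, k + 1)‖ ≤ Cw / T * h (v, k) := by
      have m1 : f (v, k + 1) = cc q (sq α) (2 * s₀) (v, k + 1) *
          (Wt γ (lam q (v, k + 1) / (T / 2)) - Wt γ (lam q (v, k + 1) / T)) := by
        simp only [hf, hw, hu]
        ring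
      have l1 : lam q (v, k + 1) = ((k : ℝ) + 2) * Real.log (q v) := by unfold lam; push_cast; ring
      have m2 := hlip (lam q (v, k + 1) / (T / 2)) (lam q (v, k + 1) / T)
        (div_nonneg (G.lam_nonneg _) hT2.le) (div_nonneg (G.lam_nonneg _) hT0)
      have m3 : |lam q (v, k + 1) / (T / 2) - lam q (v, k + 1) / T| =
          (((k : ℝ) + 2) * Real.log (q v)) / T := by
        rw [l1]
        have : ((k : ℝ) + 2) * Real.log (q v) / (T / 2) - ((k : ℝ) + 2) * Real.log (q v) / T =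
            (((k : ℝ) + 2) * Real.log (q v)) / T := by field_simp; ring
        rw [this, abs_of_nonneg (by positivity)]
      rw [m3] at m2
      have m4 := cc2_half G hs₀ v k
      have m5 := h_le G v k
      rw [m1, norm_mul]
      have m6 : (0 : ℝ) ≤ d * ((q v : ℝ) ^ (-(1 / 2) : ℝ)) ^ (k + 3) := by
        have := (Real.rpow_pos_of_pos (G.qpos v) (-(1 / 2) : ℝ)).le
        positivity
      calc _ ≤ (d * ((q v : ℝ) ^ (-(1 / 2) : ℝ)) ^ (k + 3)) * (Cw * ((((k : ℝ) + 2) * Real.log (q v)) / T)) :=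
            mul_le_mul m4 m2 (norm_nonneg _) m6
        _ = Cw / T * (d * ((q v : ℝ) ^ (-(1 / 2) : ℝ)) ^ (k + 3) * (((k : ℝ) + 2) * Real.log (q v))) := by ring
        _ ≤ _ := mul_le_mul_of_nonneg_left m5 (by positivity)
    have n3 : ‖(1 / 2 : ℂ) * f (v, k + 1)‖ ≤ Cw / T * h (v, k) := by
      rw [norm_mul]
      have : ‖(1 / 2 : ℂ)‖ = 1 / 2 := by norm_num
      rw [this]
      have := norm_nonneg (f (v, k + 1))
      linarith
    refine (norm_sub_le _ _).trans ((add_le_add n1 n3).trans (le_of_eq ?_))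
    ring
  have hfin := tsum_of_norm_bounded ((hhs.mul_left (2 * Cw / T)).hasSum) hbd
  refine hfin.trans (le_of_eq ?_)
  rw [tsum_mul_left]
  ring

/-- **the law for the sum over the places** -/
theorem law_places {s₀ : ℂ} (hs₀ : θ + 1 / 2 ≤ s₀.re) (γ : ℝ) {Λ : ℂ} {m n : ℤ} {r₀ r₂ : ℂ}
    (h : Asy Λ (Su q α s₀ γ) m r₀) (h₂ : Asy Λ (Su q (sq α) (2 * s₀) γ) n r₂) :
    Asy Λ (Sp q α s₀ γ) m (r₀ - n / 2 * Real.log 2) := by
  obtain ⟨C, hC, hc⟩ := cmp G hs₀ γ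
  have h1 : (fun T : ℝ => Sp q α s₀ γ T - Su q α s₀ γ T -
      (1 / 2) * (Su q (sq α) (2 * s₀) γ T - Su q (sq α) (2 * s₀) γ (T / 2))) =O[atTop]
      (fun T : ℝ => 1 / T) := by
    refine IsBigO.of_bound C ?_
    filter_upwards [eventually_gt_atTop 0] with T hT
    rw [Real.norm_eq_abs, abs_of_pos (by positivity : 0 < 1 / T), ← div_eq_mul_one_div]
    exact hc T hT
  have h3 : (fun T : ℝ => Su q (sq α) (2 * s₀) γ (T / 2) - (n * (Real.log (T / 2) - Λ) - r₂)) =O[atTop]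
      (fun T : ℝ => 1 / T) := by
    have ht : Tendsto (fun T : ℝ => T / 2) atTop atTop := tendsto_id.atTop_div_const (by norm_num)
    have h4 := IsBigO.comp_tendsto h₂ ht
    refine h4.trans ?_
    refine IsBigO.of_bound 2 ?_
    filter_upwards [eventually_gt_atTop 0] with T hT
    simp only [Function.comp_apply]
    rw [Real.norm_eq_abs, Real.norm_eq_abs, abs_of_pos (by positivity : 0 < 1 / (T / 2)),
      abs_of_pos (by positivity : 0 < 1 / T)]
    apply le_of_eq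
    field_simp
  have h5 := ((h1.add h).add ((IsBigO.const_mul_left h₂ (1 / 2)).sub (IsBigO.const_mul_left h3 (1 / 2))))
  unfold Asy
  refine h5.congr' ?_ EventuallyEq.rfl
  filter_upwards [eventually_gt_atTop 0] with T hT
  rw [Real.log_div hT.ne' (by norm_num)]
  push_cast
  ring

end

end Pool.Agent.X278.OP
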