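import Pool.Agent.X287.CR6

/-!
# The rotated weight is Lipschitz
-/

set_option autoImplicit false

namespace Pool.Agent.X278.OP

open Complex Filter Topology Set
open Pool.Agent.W189.ML

/-- the weight as an entire function -/
noncomputable def WC (γ : ℝ) (z : ℂ) : ℂ := exp (γ * z * I) * (Complex.Gamma (1 + z))⁻¹

/-- the weight `e^{iγu} / Γ(1+u)` -/
noncomputable def Wt (γ u : ℝ) : ℂ := exp ((γ * u : ℝ) * I) * (om u : ℂ)

theorem Wt_eq (γ u : ℝ) : Wt γ u = WC γ u := by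
  unfold Wt WC om
  rw [Complex.ofReal_inv, ← Complex.Gamma_ofReal]
  push_cast
  rfl

theorem WC_diff (γ : ℝ) : Differentiable ℂ (WC γ) := by
  unfold WC
  have h1 : Differentiable ℂ fun z : ℂ => (Complex.Gamma (1 + z))⁻¹ := by
    have := Complex.differentiable_one_div_Gamma
    exact this.comp (by fun_prop : Differentiable ℂ fun z : ℂ => 1 + z)
  exact (by fun_prop : Differentiable ℂ fun z : ℂ => exp (γ * z * I)).mul h1

theorem WC_step (γ : ℝ) {z : ℂ} (hz : z ≠ 0) :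
    WC γ z = exp (γ * I) * (WC γ (z - 1) * z⁻¹) := by
  unfold WC
  have h1 : Complex.Gamma (1 + z) = z * Complex.Gamma (1 + (z - 1)) := by
    rw [add_sub_cancel, add_comm, Complex.Gamma_add_one z hz]
  have h2 : exp (γ * z * I) = exp (γ * I) * exp (γ * (z - 1) * I) := by
    rw [← Complex.exp_add]
    congr 1
    ring
  rw [h1, h2, mul_inv]
  ring

theorem WC_deriv_step (γ : ℝ) {z : ℂ} (hz : z ≠ 0) :
    deriv (WC γ) z = exp (γ * I) * (deriv (WC γ) (z - 1) * z⁻¹ + WC γ (z - 1) * (-(z ^ 2)⁻¹)) := by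
  have h1 : WC γ =ᶠ[𝓝 z] fun w => exp (γ * I) * (WC γ (w - 1) * w⁻¹) := by
    filter_upwards [isOpen_ne.mem_nhds hz] with w hw
    exact WC_step γ hw
  rw [h1.deriv_eq]
  have h2 : HasDerivAt (fun w => WC γ (w - 1)) (deriv (WC γ) (z - 1)) z := by
    have := (WC_diff γ (z - 1)).hasDerivAt
    exact this.comp_sub_const z 1
  have h3 := hasDerivAt_inv hz
  exact ((h2.mul h3).const_mul (exp (γ * I))).deriv

theorem norm_Wt (γ : ℝ) {u : ℝ} (hu : 0 ≤ u) : ‖Wt γ u‖ = om u := by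
  unfold Wt
  rw [norm_mul, Complex.norm_exp_ofReal_mul_I, one_mul, Complex.norm_real, Real.norm_eq_abs]
  apply abs_of_pos
  unfold om
  have := Real.Gamma_pos_of_pos (by linarith : 0 < 1 + u)
  positivity

theorem norm_WC_le (γ : ℝ) {u : ℝ} (hu : 0 ≤ u) : ‖WC γ u‖ ≤ Real.exp 1 + 1 := by
  rw [← Wt_eq, norm_Wt γ hu]
  exact om_le_const hu

theorem deriv_bound (γ : ℝ) : ∃ C : ℝ, 0 ≤ C ∧ ∀ u : ℝ, 0 ≤ u → ‖deriv (WC γ) u‖ ≤ C := by
  have hcont : Continuous (deriv (WC γ)) := by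
    have h1 : ContDiff ℂ 1 (WC γ) := (WC_diff γ).contDiff
    exact h1.continuous_deriv le_rfl
  obtain ⟨M, hM⟩ := (isCompact_Icc (a := (0 : ℝ)) (b := 1)).exists_bound_of_continuousOn
    (f := fun u : ℝ => deriv (WC γ) u) (by fun_prop)
  have hM0 : 0 ≤ M := (norm_nonneg _).trans (hM 0 ⟨le_rfl, zero_le_one⟩)
  have hB0 : 0 ≤ Real.exp 1 + 1 := by positivity
  have key : ∀ n : ℕ, ∀ u : ℝ, 0 ≤ u → u ≤ n + 1 → ‖deriv (WC γ) u‖ ≤ M + 2 * (Real.exp 1 + 1) ∧
      (u ≤ 1 → ‖deriv (WC γ) u‖ ≤ M) := by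
    intro n
    induction n with
    | zero =>
      intro u h1 h2
      have h3 := hM u ⟨h1, by simpa using h2⟩
      exact ⟨by linarith, fun _ => h3⟩
    | succ n ih =>
      intro u h1 h2
      rcases le_or_gt u 1 with h | h
      · have h3 := hM u ⟨h1, h⟩
        exact ⟨by linarith, fun _ => h3⟩
      refine ⟨?_, fun h' => absurd h' (not_le.2 h)⟩
      have hu0 : (u : ℂ) ≠ 0 := by
        have : u ≠ 0 := by linarith
        exact_mod_cast this
      obtain ⟨h4, h5⟩ := ih (u - 1) (by linarith) (by push_cast at h2; linarith)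
      have h6 := norm_WC_le γ (u := u - 1) (by linarith)
      rw [WC_deriv_step γ hu0, norm_mul]
      have e1 : ‖exp ((γ : ℂ) * I)‖ = 1 := by
        exact Complex.norm_exp_ofReal_mul_I γ
      rw [e1, one_mul]
      have e2 : (u : ℂ) - 1 = ((u - 1 : ℝ) : ℂ) := by push_cast; rfl
      rw [e2]
      refine (norm_add_le _ _).trans ?_
      rw [norm_mul, norm_mul, norm_neg, norm_inv, norm_inv, norm_pow, Complex.norm_real,
        Real.norm_eq_abs, abs_of_pos (by linarith)]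
      have hi1 : (u ^ 2)⁻¹ ≤ 1 := inv_le_one_of_one_le₀ (by nlinarith)
      have hi0 : 0 ≤ (u ^ 2)⁻¹ := by positivity
      rcases le_or_gt u 2 with h7 | h7
      · have h8 := h5 (by linarith)
        have hi2 : u⁻¹ ≤ 1 := inv_le_one_of_one_le₀ h.le
        have hi3 : 0 ≤ u⁻¹ := by positivity
        calc _ ≤ M * 1 + (Real.exp 1 + 1) * 1 := by gcongr
          _ ≤ _ := by linarith
      · have hi2 : u⁻¹ ≤ 1 / 2 := by
          rw [one_div]
          exact inv_anti₀ (by norm_num) h7.le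
        have hi3 : 0 ≤ u⁻¹ := by positivity
        calc _ ≤ (M + 2 * (Real.exp 1 + 1)) * (1 / 2) + (Real.exp 1 + 1) * 1 := by gcongr
          _ ≤ _ := by linarith
  refine ⟨M + 2 * (Real.exp 1 + 1), by positivity, fun u hu => ?_⟩
  obtain ⟨n, hn⟩ := exists_nat_ge u
  exact (key n u hu (by linarith)).1

/-- **the weight is Lipschitz on the half line** -/
theorem Wt_lip (γ : ℝ) : ∃ C : ℝ, 0 ≤ C ∧ ∀ u v : ℝ, 0 ≤ u → 0 ≤ v →
    ‖Wt γ u - Wt γ v‖ ≤ C * |u - v| := by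
  obtain ⟨C, hC, h⟩ := deriv_bound γ
  refine ⟨C, hC, fun u v hu hv => ?_⟩
  have h1 : ∀ x ∈ Ici (0 : ℝ), HasDerivWithinAt (fun x : ℝ => WC γ x) (deriv (WC γ) x) (Ici 0) x := by
    intro x _
    exact ((WC_diff γ x).hasDerivAt.comp_ofReal).hasDerivWithinAt
  have h2 := (convex_Ici (0 : ℝ)).norm_image_sub_le_of_norm_hasDerivWithin_le
    (f := fun x : ℝ => WC γ x) (C := C) h1 (fun x hx => h x hx) (show v ∈ Ici (0 : ℝ) from hv)
    (show u ∈ Ici (0 : ℝ) from hu)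
  rw [Wt_eq, Wt_eq]
  simpa using h2

end Pool.Agent.X278.OP
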