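import Pool.Agent.X278.OP.NF
import Pool.Agent.X278.OP.Bd

/-!
# Twisted sums over the primes only, and residue classes
-/

set_option autoImplicit false

namespace Pool.Agent.X278.OP

open Complex Filter Topology Set Asymptotics
open Pool.Agent.W189.ML Pool.Agent.X287.CR

variable {X : Type} {d : ℕ} {θ : ℝ} {q : X → ℕ} {α : X → Fin d → ℂ}

/-- the twisted roots -/
def twp (ψ : X → ℂ) (α : X → Fin d → ℂ) : X → Fin d → ℂ := fun v i => ψ v * α v i

/-- the twisted sum over the places -/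
noncomputable def Spt (ψ : X → ℂ) (q : X → ℕ) (α : X → Fin d → ℂ) (s₀ : ℂ) (γ T : ℝ) : ℂ :=
  ∑' v, ψ v * (-(lg q α s₀ v) * Wt γ (Real.log (q v) / T))

theorem Wt_zero (γ : ℝ) : Wt γ 0 = 1 := by
  unfold Wt om
  simp

theorem twp_sys (G : CSys θ q α) {ψ : X → ℂ} (hψ : ∀ v, ‖ψ v‖ ≤ 1) : CSys θ q (twp ψ α) where
  cnt := G.cnt
  two_le := G.two_le
  sum := G.sum
  le := fun v i => by
    unfold twp
    rw [norm_mul]
    calc ‖ψ v‖ * ‖α v i‖ ≤ 1 * ‖α v i‖ := by gcongr; exact hψ v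
      _ = ‖α v i‖ := one_mul _
      _ ≤ _ := G.le v i

lemma cc_twp (ψ : X → ℂ) (s₀ : ℂ) (x : X × ℕ) :
    cc q (twp ψ α) s₀ x = ψ x.1 ^ (x.2 + 1) * cc q α s₀ x := by
  unfold cc twp
  simp only [mul_pow]
  rw [← Finset.mul_sum]
  ring

section

variable (G : CSys θ q α)
include G

lemma cc2_half' {β : X → Fin d → ℂ} (G2 : CSys (2 * θ) q β) {s₀ : ℂ} (hs₀ : θ + 1 / 2 ≤ s₀.re) (v : X) (k : ℕ) :
    ‖cc q β (2 * s₀) (v, k + 1)‖ ≤ d * ((q v : ℝ) ^ (-(1 / 2) : ℝ)) ^ (k + 3) := by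
  refine (G2.cc_le (2 * s₀) (v, k + 1)).trans ?_
  have h0 := (Real.rpow_pos_of_pos (G.qpos v) (-(1 / 2) : ℝ)).le
  have h1 : (q v : ℝ) ^ (2 * θ - (2 * s₀).re) ≤ ((q v : ℝ) ^ (-(1 / 2) : ℝ)) ^ 2 := by
    rw [← Real.rpow_natCast, ← Real.rpow_mul (G.qpos v).le]
    apply Real.rpow_le_rpow_of_exponent_le (by linarith [G.two_le' v])
    have : (2 * s₀).re = 2 * s₀.re := by simp
    rw [this]
    push_cast
    linarith
  have h2 := (Real.rpow_pos_of_pos (G.qpos v) (2 * θ - (2 * s₀).re)).le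
  have h3 : (q v : ℝ) ^ (-(1 / 2) : ℝ) ≤ 1 := (half_le G v).trans (by norm_num)
  refine mul_le_mul_of_nonneg_left ?_ (Nat.cast_nonneg _)
  calc ((q v : ℝ) ^ (2 * θ - (2 * s₀).re)) ^ (k + 1 + 1) ≤ (((q v : ℝ) ^ (-(1 / 2) : ℝ)) ^ 2) ^ (k + 1 + 1) :=
        pow_le_pow_left₀ h2 h1 _
    _ = ((q v : ℝ) ^ (-(1 / 2) : ℝ)) ^ (2 * (k + 1 + 1)) := by rw [pow_mul]
    _ ≤ ((q v : ℝ) ^ (-(1 / 2) : ℝ)) ^ (k + 3) := pow_le_pow_of_le_one h0 h3 (by omega)

theorem Spt_summable {ψ : X → ℂ} (hψ : ∀ v, ‖ψ v‖ ≤ 1) {s₀ : ℂ} (hs₀ : θ + 1 / 2 ≤ s₀.re) (γ : ℝ) {T : ℝ}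
    (hT : 0 < T) : Summable fun v => ‖ψ v * (-(lg q α s₀ v) * Wt γ (Real.log (q v) / T))‖ := by
  refine Summable.of_nonneg_of_le (fun v => norm_nonneg _) (fun v => ?_) (Sp_summable G hs₀ γ hT)
  rw [norm_mul]
  calc _ ≤ 1 * ‖-(lg q α s₀ v) * Wt γ (Real.log (q v) / T)‖ := by gcongr; exact hψ v
    _ = _ := one_mul _

/-- **the comparison with a twist** -/
theorem cmp_tw {ψ : X → ℂ} (hψ : ∀ v, ‖ψ v‖ ≤ 1) {s₀ : ℂ} (hs₀ : θ + 1 / 2 ≤ s₀.re) (γ : ℝ) :
    ∃ (E₀ : ℂ) (C : ℝ), 0 ≤ C ∧ ∀ T : ℝ, 0 < T →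
    ‖Spt ψ q α s₀ γ T - Su q (twp ψ α) s₀ γ T -
      (1 / 2) * (Su q (twp ψ (sq α)) (2 * s₀) γ T - Su q (sq (twp ψ α)) (2 * s₀) γ (T / 2)) - E₀‖ ≤
        C / T := by
  obtain ⟨Cw, hCw, hlip⟩ := Wt_lip γ
  set h : X × ℕ → ℝ := fun x => 4 * d * ((q x.1 : ℝ) ^ (-(5 / 4) : ℝ) * (((x.2 : ℝ) + 2) * (3 / 4) ^ x.2))
    with hh
  have hhs : Summable h := (geo_sum G).mul_left (4 * (d : ℝ))
  have hh0 : ∀ x, 0 ≤ h x := fun x => by
    have := (Real.rpow_pos_of_pos (G.qpos x.1) (-(5 / 4) : ℝ)).le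
    rw [hh]
    positivity
  have G1 := twp_sys G hψ
  have G2 := sq_sys G
  have G3 := twp_sys G2 hψ
  have G4 := sq_sys G1
  set e₀ : X × ℕ → ℂ := fun x => cc q (twp ψ α) s₀ x - ψ x.1 * cc q α s₀ x with he₀
  set f₀ : X × ℕ → ℂ := fun x => cc q (sq (twp ψ α)) (2 * s₀) x - cc q (twp ψ (sq α)) (2 * s₀) x with hf₀
  set D₀ : X × ℕ → ℂ := fun x => e₀ (x.1, x.2 + 1 + 1) - (1 / 2) * f₀ (x.1, x.2 + 1) with hD₀
  refine ⟨∑' x, D₀ x, 4 * Cw * ∑' x, h x, by have : 0 ≤ ∑' x, h x := tsum_nonneg hh0; positivity,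
    fun T hT => ?_⟩
  have hT2 : 0 < T / 2 := by positivity
  have hs1 : θ ≤ s₀.re := by linarith
  have hs2 : 2 * θ ≤ (2 * s₀).re := by
    have : (2 * s₀).re = 2 * s₀.re := by simp
    rw [this]
    linarith
  -- the terms
  set t : X × ℕ → ℂ := fun x => cc q (twp ψ α) s₀ x * Wt γ (lam q x / T) with ht
  set b : X × ℕ → ℂ := fun x => ψ x.1 * (cc q α s₀ x * Wt γ (Real.log (q x.1) / T)) with hb
  set u : X × ℕ → ℂ := fun x => cc q (twp ψ (sq α)) (2 * s₀) x * Wt γ (lam q x / T) with hu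
  set w : X × ℕ → ℂ := fun x => cc q (sq (twp ψ α)) (2 * s₀) x * Wt γ (lam q x / (T / 2)) with hw
  have st : Summable t := by
    have := (G1.tm_summable hs1 γ hT).of_norm
    refine this.neg.congr fun x => ?_
    rw [tm_Wt, neg_neg]
  have sb : Summable b := by
    refine Summable.of_norm_bounded (b_summable G hs₀ γ hT) fun x => ?_
    rw [hb]
    simp only
    rw [norm_mul]
    calc _ ≤ 1 * ‖cc q α s₀ x * Wt γ (Real.log (q x.1) / T)‖ := by gcongr; exact hψ x.1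
      _ = _ := one_mul _
  have su : Summable u := by
    have := (G3.tm_summable hs2 γ hT).of_norm
    refine this.neg.congr fun x => ?_
    rw [tm_Wt, neg_neg]
  have sw : Summable w := by
    have := (G4.tm_summable hs2 γ hT2).of_norm
    refine this.neg.congr fun x => ?_
    rw [tm_Wt, neg_neg]
  set e : X × ℕ → ℂ := fun x => t x - b x with he
  set f : X × ℕ → ℂ := fun x => w x - u x with hf
  have se : Summable e := st.sub sb
  have sf : Summable f := sw.sub su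
  obtain ⟨e1, -, se1⟩ := split se
  obtain ⟨e2, se20, se2⟩ := split se1
  obtain ⟨f1, sf0, sf1⟩ := split sf
  have l2 : ∀ v, lam q (v, 0) = Real.log (q v) := by intro v; unfold lam; simp
  have he0 : ∀ v, e (v, 0) = 0 := by
    intro v
    simp only [he, ht, hb, cc_twp, l2]
    ring
  have he1 : ∀ v, e (v, 0 + 1) = (1 / 2) * f (v, 0) := by
    intro v
    have l1 : lam q (v, 0 + 1) = 2 * Real.log (q v) := by unfold lam; push_cast; ring
    have l3 : cc q α s₀ (v, 0 + 1) = (1 / 2) * cc q (sq α) (2 * s₀) (v, 0) := by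
      unfold cc
      simp only [l1, l2, sq]
      have h1 : exp (-(s₀ * ((2 * Real.log (q v) : ℝ) : ℂ))) =
          exp (-(2 * s₀ * (Real.log (q v) : ℝ))) := by
        congr 1
        push_cast
        ring
      rw [h1]
      simp only [zero_add, pow_one]
      push_cast
      ring_nf
    have l5 : cc q (sq (twp ψ α)) (2 * s₀) (v, 0) = ψ v ^ 2 * cc q (sq α) (2 * s₀) (v, 0) := by
      have : sq (twp ψ α) = twp (fun v => ψ v ^ 2) (sq α) := by
        funext v i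
        unfold sq twp
        ring
      rw [this, cc_twp]
      simp
    have l4 : (2 * Real.log (q v)) / T = Real.log (q v) / (T / 2) := by field_simp
    simp only [he, ht, hb, hf, hw, hu, l1, l2, l4, cc_twp, l5, l3]
    ring
  have hE : Spt ψ q α s₀ γ T - Su q (twp ψ α) s₀ γ T -
      (1 / 2) * (Su q (twp ψ (sq α)) (2 * s₀) γ T - Su q (sq (twp ψ α)) (2 * s₀) γ (T / 2)) =
      ∑' x : X × ℕ, (e (x.1, x.2 + 1 + 1) - (1 / 2) * f (x.1, x.2 + 1)) := by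
    have hSp : Spt ψ q α s₀ γ T = -∑' x, b x := by
      rw [sb.tsum_prod' (fun v => sb.prod_factor v), ← tsum_neg]
      unfold Spt
      refine tsum_congr fun v => ?_
      unfold lg
      simp only [hb, tsum_mul_left, tsum_mul_right]
      ring
    rw [hSp, Su_Wt, Su_Wt, Su_Wt]
    have k1 : ∑' x, e x = ∑' x, t x - ∑' x, b x := st.tsum_sub sb
    have k2 : ∑' x, f x = ∑' x, w x - ∑' x, u x := sw.tsum_sub su
    have k3 : ∑' v, e (v, 0) = 0 := by simp [he0]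
    have k4 : ∑' v, e (v, 0 + 1) = (1 / 2) * ∑' v, f (v, 0) := by
      rw [← tsum_mul_left]
      exact tsum_congr he1
    have k5 : ∑' x : X × ℕ, (e (x.1, x.2 + 1 + 1) - (1 / 2) * f (x.1, x.2 + 1)) =
        ∑' x : X × ℕ, e (x.1, x.2 + 1 + 1) - (1 / 2) * ∑' x : X × ℕ, f (x.1, x.2 + 1) := by
      rw [← tsum_mul_left]
      exact se2.tsum_sub (sf1.mul_left _)
    have e2' : ∑' x : X × ℕ, e (x.1, x.2 + 1) =
        ∑' v, e (v, 0 + 1) + ∑' x : X × ℕ, e (x.1, x.2 + 1 + 1) := e2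
    rw [k5]
    linear_combination (-1 : ℂ) * k1 + e1 + k3 + e2' + k4 + (1 / 2) * k2 - (1 / 2) * f1
  rw [hE]
  set D : X × ℕ → ℂ := fun x => e (x.1, x.2 + 1 + 1) - (1 / 2) * f (x.1, x.2 + 1) with hD
  have hDs : Summable D := se2.sub (sf1.mul_left _)
  have hbd : ∀ x : X × ℕ, ‖D x - D₀ x‖ ≤ 4 * Cw / T * h x := by
    rintro ⟨v, k⟩
    have hl := (G.logpos v).le
    have hT0 := hT.le
    have hk : (0 : ℝ) ≤ k := Nat.cast_nonneg _
    have hw0 : ∀ z : ℝ, 0 ≤ z → ‖Wt γ z - 1‖ ≤ Cw * z := by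
      intro z hz
      have := hlip z 0 hz le_rfl
      rwa [Wt_zero, sub_zero, abs_of_nonneg hz] at this
    have m6 : (0 : ℝ) ≤ d * ((q v : ℝ) ^ (-(1 / 2) : ℝ)) ^ (k + 3) := by
      have := (Real.rpow_pos_of_pos (G.qpos v) (-(1 / 2) : ℝ)).le
      positivity
    set g : ℝ := d * ((q v : ℝ) ^ (-(1 / 2) : ℝ)) ^ (k + 3) with hg
    have m5 : g * (((k : ℝ) + 2) * Real.log (q v)) ≤ h (v, k) := h_le G v k
    have l1 : lam q (v, k + 1 + 1) = ((k : ℝ) + 3) * Real.log (q v) := by unfold lam; push_cast; ring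
    have l1' : lam q (v, k + 1) = ((k : ℝ) + 2) * Real.log (q v) := by unfold lam; push_cast; ring
    have n1 : ‖e (v, k + 1 + 1) - e₀ (v, k + 1 + 1)‖ ≤ 2 * (Cw / T * h (v, k)) := by
      have m1 : e (v, k + 1 + 1) - e₀ (v, k + 1 + 1) =
          cc q (twp ψ α) s₀ (v, k + 2) * (Wt γ (lam q (v, k + 1 + 1) / T) - 1) -
          (ψ v * cc q α s₀ (v, k + 2)) * (Wt γ (Real.log (q v) / T) - 1) := by
        simp only [he, ht, hb, he₀]
        ring
      have m2 := hw0 (lam q (v, k + 1 + 1) / T) (div_nonneg (G.lam_nonneg _) hT0)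
      have m3 := hw0 (Real.log (q v) / T) (div_nonneg hl hT0)
      have m4 : ‖cc q (twp ψ α) s₀ (v, k + 2)‖ ≤ g := cc_half G1 hs₀ (v, k + 2)
      have m4' : ‖ψ v * cc q α s₀ (v, k + 2)‖ ≤ g := by
        rw [norm_mul]
        calc _ ≤ 1 * g := mul_le_mul (hψ v) (cc_half G hs₀ (v, k + 2)) (norm_nonneg _) zero_le_one
          _ = g := one_mul _
      rw [m1]
      refine (norm_sub_le _ _).trans ?_
      rw [norm_mul, norm_mul]
      rw [l1] at m2
      calc _ ≤ g * (Cw * (((k : ℝ) + 3) * Real.log (q v) / T)) + g * (Cw * (Real.log (q v) / T)) := by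
            rw [l1]
            exact add_le_add (mul_le_mul m4 m2 (norm_nonneg _) m6) (mul_le_mul m4' m3 (norm_nonneg _) m6)
        _ = Cw / T * (g * (((k : ℝ) + 4) * Real.log (q v))) := by ring
        _ ≤ Cw / T * (2 * (g * (((k : ℝ) + 2) * Real.log (q v)))) := by
            refine mul_le_mul_of_nonneg_left ?_ (by positivity)
            have : 0 ≤ g * Real.log (q v) := by positivity
            nlinarith
        _ ≤ Cw / T * (2 * h (v, k)) := by gcongr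
        _ = _ := by ring
    have n2 : ‖f (v, k + 1) - f₀ (v, k + 1)‖ ≤ 3 * (Cw / T * h (v, k)) := by
      have m1 : f (v, k + 1) - f₀ (v, k + 1) =
          cc q (sq (twp ψ α)) (2 * s₀) (v, k + 1) * (Wt γ (lam q (v, k + 1) / (T / 2)) - 1) -
          cc q (twp ψ (sq α)) (2 * s₀) (v, k + 1) * (Wt γ (lam q (v, k + 1) / T) - 1) := by
        simp only [hf, hw, hu, hf₀]
        ring
      have m2 := hw0 (lam q (v, k + 1) / (T / 2)) (div_nonneg (G.lam_nonneg _) hT2.le)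
      have m3 := hw0 (lam q (v, k + 1) / T) (div_nonneg (G.lam_nonneg _) hT0)
      have m4 : ‖cc q (sq (twp ψ α)) (2 * s₀) (v, k + 1)‖ ≤ g := cc2_half' G G4 hs₀ v k
      have m4' : ‖cc q (twp ψ (sq α)) (2 * s₀) (v, k + 1)‖ ≤ g := cc2_half' G G3 hs₀ v k
      rw [m1]
      refine (norm_sub_le _ _).trans ?_
      rw [norm_mul, norm_mul]
      rw [l1'] at m2 m3 ⊢
      calc _ ≤ g * (Cw * (((k : ℝ) + 2) * Real.log (q v) / (T / 2))) +
            g * (Cw * (((k : ℝ) + 2) * Real.log (q v) / T)) :=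
            add_le_add (mul_le_mul m4 m2 (norm_nonneg _) m6) (mul_le_mul m4' m3 (norm_nonneg _) m6)
        _ = 3 * (Cw / T * (g * (((k : ℝ) + 2) * Real.log (q v)))) := by field_simp; ring
        _ ≤ 3 * (Cw / T * h (v, k)) := by gcongr
    have m1 : D (v, k) - D₀ (v, k) = (e (v, k + 1 + 1) - e₀ (v, k + 1 + 1)) -
        (1 / 2) * (f (v, k + 1) - f₀ (v, k + 1)) := by
      simp only [hD, hD₀]
      ring
    rw [m1]
    refine (norm_sub_le _ _).trans ?_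
    rw [norm_mul]
    have : ‖(1 / 2 : ℂ)‖ = 1 / 2 := by norm_num
    rw [this]
    have h9 : 0 ≤ Cw / T * h (v, k) := by
      have := hh0 (v, k)
      positivity
    calc _ ≤ 2 * (Cw / T * h (v, k)) + 1 / 2 * (3 * (Cw / T * h (v, k))) := by gcongr
      _ ≤ 4 * (Cw / T * h (v, k)) := by linarith
      _ = _ := by ring
  have hDD : Summable fun x => D x - D₀ x :=
    Summable.of_norm_bounded (hhs.mul_left (4 * Cw / T)) hbd
  have hD0s : Summable D₀ := by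
    refine (hDs.sub hDD).congr fun x => ?_
    ring
  rw [← hDs.tsum_sub hD0s]
  refine (tsum_of_norm_bounded ((hhs.mul_left (4 * Cw / T)).hasSum) hbd).trans (le_of_eq ?_)
  rw [tsum_mul_left]
  ring

end

/-- an asymptotic formula with arbitrary coefficients -/
def Asc (Λ : ℂ) (S : ℝ → ℂ) (κ C : ℂ) : Prop :=
  (fun T : ℝ => S T - (κ * (Real.log T - Λ) + C)) =O[atTop] (fun T : ℝ => 1 / T)

section

variable (G : CSys θ q α)
include G

/-- **the law for the twisted sum over the places** -/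
theorem law_tw {ψ : X → ℂ} (hψ : ∀ v, ‖ψ v‖ ≤ 1) {s₀ : ℂ} (hs₀ : θ + 1 / 2 ≤ s₀.re) (γ : ℝ) {Λ : ℂ}
    {m n n' : ℤ} {r₀ r₂ r₃ : ℂ} (h : Asy Λ (Su q (twp ψ α) s₀ γ) m r₀)
    (h₂ : Asy Λ (Su q (twp ψ (sq α)) (2 * s₀) γ) n r₂)
    (h₃ : Asy Λ (Su q (twp (fun v => ψ v ^ 2) (sq α)) (2 * s₀) γ) n' r₃) :
    ∃ C : ℂ, Asc Λ (Spt ψ q α s₀ γ) (m + (n - n') / 2) C := by
  obtain ⟨E₀, C, hC, hc⟩ := cmp_tw G hψ hs₀ γ
  have e : sq (twp ψ α) = twp (fun v => ψ v ^ 2) (sq α) := by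
    funext v i
    unfold sq twp
    ring
  rw [← e] at h₃
  refine ⟨-r₀ - r₂ / 2 + r₃ / 2 + n' / 2 * Real.log 2 + E₀, ?_⟩
  have h1 : (fun T : ℝ => Spt ψ q α s₀ γ T - Su q (twp ψ α) s₀ γ T -
      (1 / 2) * (Su q (twp ψ (sq α)) (2 * s₀) γ T - Su q (sq (twp ψ α)) (2 * s₀) γ (T / 2)) - E₀) =O[atTop]
      (fun T : ℝ => 1 / T) := by
    refine IsBigO.of_bound C ?_
    filter_upwards [eventually_gt_atTop 0] with T hT
    rw [Real.norm_eq_abs, abs_of_pos (by positivity : 0 < 1 / T), ← div_eq_mul_one_div]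
    exact hc T hT
  have h3 : (fun T : ℝ => Su q (sq (twp ψ α)) (2 * s₀) γ (T / 2) - (n' * (Real.log (T / 2) - Λ) - r₃)) =O[atTop]
      (fun T : ℝ => 1 / T) := by
    have ht : Tendsto (fun T : ℝ => T / 2) atTop atTop := tendsto_id.atTop_div_const (by norm_num)
    have h4 := IsBigO.comp_tendsto h₃ ht
    refine h4.trans ?_
    refine IsBigO.of_bound 2 ?_
    filter_upwards [eventually_gt_atTop 0] with T hT
    simp only [Function.comp_apply]
    rw [Real.norm_eq_abs, Real.norm_eq_abs, abs_of_pos (by positivity : 0 < 1 / (T / 2)),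
      abs_of_pos (by positivity : 0 < 1 / T)]
    apply le_of_eq
    field_simp
  have h5 := ((h1.add h).add ((IsBigO.const_mul_left h₂ (1 / 2)).sub (IsBigO.const_mul_left h3 (1 / 2))))
  unfold Asc
  refine h5.congr' ?_ EventuallyEq.rfl
  filter_upwards [eventually_gt_atTop 0] with T hT
  rw [Real.log_div hT.ne' (by norm_num)]
  push_cast
  ring

/-- the sum over the places in a residue class -/
theorem class_eq {N : ℕ} [NeZero N] {s₀ : ℂ} (hs₀ : θ + 1 / 2 ≤ s₀.re) (γ : ℝ) {T : ℝ}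
    (hT : 0 < T) (c : (ZMod N)ˣ) :
    (∑' v : {v : X // ((q v : ℕ) : ZMod N) = c}, -(lg q α s₀ v.1) * Wt γ (Real.log (q v.1) / T)) =
    (N.totient : ℂ)⁻¹ * ∑ χ : DirichletCharacter ℂ N, χ ((c : ZMod N)⁻¹) *
      Spt (fun v => χ ((q v : ℕ) : ZMod N)) q α s₀ γ T := by
  classical
  have hφ : (N.totient : ℂ) ≠ 0 := by
    have := Nat.totient_pos.2 (NeZero.pos N)
    exact_mod_cast this.ne'
  set g : X → ℂ := fun v => -(lg q α s₀ v) * Wt γ (Real.log (q v) / T) with hg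
  have h1 : (∑' v : {v : X // ((q v : ℕ) : ZMod N) = c}, g v.1) =
      ∑' v, ({v : X | ((q v : ℕ) : ZMod N) = c}.indicator g) v := tsum_subtype _ g
  have hs : ∀ χ : DirichletCharacter ℂ N, Summable fun v => χ ((c : ZMod N)⁻¹) *
      (χ ((q v : ℕ) : ZMod N) * g v) := fun χ =>
    ((Spt_summable G (ψ := fun v => χ ((q v : ℕ) : ZMod N)) (fun v => DirichletCharacter.norm_le_one χ _)
      hs₀ γ hT).of_norm).mul_left _
  have h2 : ∀ v, ({v : X | ((q v : ℕ) : ZMod N) = c}.indicator g) v =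
      (N.totient : ℂ)⁻¹ * ∑ χ : DirichletCharacter ℂ N, χ ((c : ZMod N)⁻¹) *
        (χ ((q v : ℕ) : ZMod N) * g v) := by
    intro v
    have h3 : ∑ χ : DirichletCharacter ℂ N, χ ((c : ZMod N)⁻¹) * (χ ((q v : ℕ) : ZMod N) * g v) =
        (∑ χ : DirichletCharacter ℂ N, χ ((c : ZMod N)⁻¹) * χ ((q v : ℕ) : ZMod N)) * g v := by
      rw [Finset.sum_mul]
      exact Finset.sum_congr rfl fun χ _ => by ring
    rw [h3, DirichletCharacter.sum_char_inv_mul_char_eq ℂ c.isUnit]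
    by_cases h : ((q v : ℕ) : ZMod N) = c
    · rw [Set.indicator_of_mem (show v ∈ {v : X | ((q v : ℕ) : ZMod N) = c} from h), if_pos h.symm]
      field_simp
    · rw [Set.indicator_of_notMem (show v ∉ {v : X | ((q v : ℕ) : ZMod N) = c} from h),
        if_neg (fun h' => h h'.symm)]
      ring
  show (∑' v : {v : X // ((q v : ℕ) : ZMod N) = c}, g v.1) = _
  rw [h1]
  simp only [h2]
  rw [tsum_mul_left, Summable.tsum_finsetSum (fun χ _ => hs χ)]
  congr 1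
  refine Finset.sum_congr rfl fun χ _ => ?_
  rw [tsum_mul_left]
  rfl

/-- **the law for the classes** -/
theorem class_Asc {N : ℕ} [NeZero N] {s₀ : ℂ} (hs₀ : θ + 1 / 2 ≤ s₀.re) (γ : ℝ) {Λ : ℂ}
    (κ C : DirichletCharacter ℂ N → ℂ)
    (h : ∀ χ : DirichletCharacter ℂ N, Asc Λ (Spt (fun v => χ ((q v : ℕ) : ZMod N)) q α s₀ γ) (κ χ) (C χ))
    (c : (ZMod N)ˣ) :
    Asc Λ (fun T => ∑' v : {v : X // ((q v : ℕ) : ZMod N) = c}, -(lg q α s₀ v.1) *
        Wt γ (Real.log (q v.1) / T))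
      ((N.totient : ℂ)⁻¹ * ∑ χ : DirichletCharacter ℂ N, χ ((c : ZMod N)⁻¹) * κ χ)
      ((N.totient : ℂ)⁻¹ * ∑ χ : DirichletCharacter ℂ N, χ ((c : ZMod N)⁻¹) * C χ) := by
  have h1 : (fun T : ℝ => (N.totient : ℂ)⁻¹ * ∑ χ : DirichletCharacter ℂ N, χ ((c : ZMod N)⁻¹) *
      (Spt (fun v => χ ((q v : ℕ) : ZMod N)) q α s₀ γ T - (κ χ * (Real.log T - Λ) + C χ))) =O[atTop]
      (fun T : ℝ => 1 / T) := by
    refine IsBigO.const_mul_left ?_ _
    refine IsBigO.fun_sum fun χ _ => ?_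
    exact IsBigO.const_mul_left (h χ) _
  unfold Asc
  refine h1.congr' ?_ EventuallyEq.rfl
  filter_upwards [eventually_gt_atTop 0] with T hT
  rw [class_eq G hs₀ γ hT c]
  simp only [mul_sub, mul_add, Finset.sum_sub_distrib, Finset.sum_add_distrib, Finset.mul_sum,
    Finset.sum_mul]
  simp only [← mul_assoc, sub_mul, Finset.sum_sub_distrib]

end

end Pool.Agent.X278.OP
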